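import Mathlib

/-!
# Sets of linear forms over `ZMod q`: a bound for the dimension of their span
-/

set_option autoImplicit false

namespace Pool.Agent.K1H68.LP

open Finset

section

variable {q : ℕ} [hq : Fact q.Prime] {E : Type*} [AddCommGroup E] [Module (ZMod q) E]

open Classical in
/-- the image of `Λ` in `E / V` -/
noncomputable def img (Λ : Finset E) (V : Submodule (ZMod q) E) : Finset (E ⧸ V) :=
  Λ.image V.mkQ

open Classical in
/-- the elements of `Λ` in the class of `μ` modulo `V` -/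
noncomputable def fib (Λ : Finset E) (V : Submodule (ZMod q) E) (μ : E) : Finset E :=
  Λ.filter fun l => l - μ ∈ V

open Classical in
/-- the elements of `Λ` outside of `V` -/
noncomputable def out (Λ : Finset E) (V : Submodule (ZMod q) E) : Finset E :=
  Λ.filter fun l => l ∉ V

open Classical in
/-- the nonzero elements of the image of `Λ` -/
noncomputable def img0 (Λ : Finset E) (V : Submodule (ZMod q) E) : Finset (E ⧸ V) :=
  (img Λ V).filter fun c => c ≠ 0

theorem mem_img {Λ : Finset E} {V : Submodule (ZMod q) E} {c : E ⧸ V} :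
    c ∈ img Λ V ↔ ∃ l ∈ Λ, V.mkQ l = c := by
  classical
  unfold img
  rw [Finset.mem_image]

theorem mem_fib {Λ : Finset E} {V : Submodule (ZMod q) E} {μ l : E} :
    l ∈ fib Λ V μ ↔ l ∈ Λ ∧ l - μ ∈ V := by
  classical
  unfold fib
  rw [Finset.mem_filter]

theorem mem_out {Λ : Finset E} {V : Submodule (ZMod q) E} {l : E} :
    l ∈ out Λ V ↔ l ∈ Λ ∧ l ∉ V := by
  classical
  unfold out
  rw [Finset.mem_filter]

theorem mem_img0 {Λ : Finset E} {V : Submodule (ZMod q) E} {c : E ⧸ V} :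
    c ∈ img0 Λ V ↔ (∃ l ∈ Λ, V.mkQ l = c) ∧ c ≠ 0 := by
  classical
  unfold img0
  rw [Finset.mem_filter, mem_img]

theorem mkQ_eq {V : Submodule (ZMod q) E} {a b : E} : V.mkQ a = V.mkQ b ↔ a - b ∈ V := by
  rw [Submodule.mkQ_apply, Submodule.mkQ_apply, Submodule.Quotient.eq]

theorem mkQ_eq_zero {V : Submodule (ZMod q) E} {a : E} : V.mkQ a = 0 ↔ a ∈ V := by
  rw [Submodule.mkQ_apply, Submodule.Quotient.mk_eq_zero]

/-- `Λ` is closed under multiplication by nonzero scalars -/
def Scal (q : ℕ) {E : Type*} [AddCommGroup E] [Module (ZMod q) E] (Λ : Finset E) : Prop :=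
  ∀ c : ZMod q, c ≠ 0 → ∀ l ∈ Λ, c • l ∈ Λ

theorem mem_sup_span {V : Submodule (ZMod q) E} {a x : E} :
    x ∈ V ⊔ Submodule.span (ZMod q) {a} ↔ ∃ s : ZMod q, x - s • a ∈ V := by
  rw [Submodule.mem_sup]
  constructor
  · rintro ⟨v, hv, w, hw, rfl⟩
    obtain ⟨s, rfl⟩ := Submodule.mem_span_singleton.1 hw
    exact ⟨s, by simpa using hv⟩
  · rintro ⟨s, hs⟩
    exact ⟨x - s • a, hs, s • a, Submodule.mem_span_singleton.2 ⟨s, rfl⟩, by abel⟩

/-- if `(s - s') a ∈ V` and `a ∉ V` then `s = s'` -/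
theorem scal_inj {V : Submodule (ZMod q) E} {a : E} (ha : a ∉ V) {s : ZMod q} (h : s • a ∈ V) :
    s = 0 := by
  by_contra hs
  apply ha
  have := V.smul_mem s⁻¹ h
  rwa [smul_smul, inv_mul_cancel₀ hs, one_smul] at this

theorem smul_cancel {s : ZMod q} (hs : s ≠ 0) {a b : E} (h : s • a = s • b) : a = b := by
  have := congrArg (fun x => s⁻¹ • x) h
  simpa [smul_smul, inv_mul_cancel₀ hs] using this

theorem card_units_sub : Fintype.card (ZMod q)ˣ = q - 1 := by
  rw [ZMod.card_units_eq_totient, Nat.totient_prime hq.out]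

/-! ### Absorbing a large fibre -/

theorem absorb {Λ : Finset E} (hΛ : Scal q Λ) {V : Submodule (ZMod q) E} {μ : E}
    (hμ : μ ∉ V) (hf : q + 2 ≤ 2 * (fib Λ V μ).card) :
    2 * (out Λ (V ⊔ Submodule.span (ZMod q) {μ})).card + q ^ 2 ≤ 2 * (out Λ V).card := by
  classical
  set V' := V ⊔ Submodule.span (ZMod q) {μ} with hV'
  have h1 : (q - 1) * (fib Λ V μ).card ≤ ((out Λ V).filter fun l => l ∈ V').card := by
    rw [← card_units_sub (q := q), ← Finset.card_univ, ← Finset.card_product]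
    refine Finset.card_le_card_of_injOn (fun t => (t.1 : ZMod q) • t.2) ?_ ?_
    · rintro ⟨s, l⟩ hsl
      have hl := (Finset.mem_product.1 (Finset.mem_coe.1 hsl)).2
      rw [mem_fib] at hl
      show (s : ZMod q) • l ∈ _
      rw [Finset.mem_coe, Finset.mem_filter, mem_out]
      have hlV : l ∉ V := fun h => hμ (by simpa using V.sub_mem h hl.2)
      refine ⟨⟨hΛ _ s.ne_zero _ hl.1, fun h => ?_⟩, ?_⟩
      · exact s.ne_zero (scal_inj hlV h)
      · apply V'.smul_mem
        rw [hV', mem_sup_span]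
        exact ⟨1, by simpa using hl.2⟩
    · rintro ⟨s, l⟩ hsl ⟨s', l'⟩ hsl' h
      have hl := (Finset.mem_product.1 (Finset.mem_coe.1 hsl)).2
      have hl' := (Finset.mem_product.1 (Finset.mem_coe.1 hsl')).2
      rw [mem_fib] at hl hl'
      simp only at h hl hl'
      have h2 : ((s : ZMod q) - s') • μ ∈ V := by
        have e : ((s : ZMod q) - s') • μ = (s' : ZMod q) • (l' - μ) - (s : ZMod q) • (l - μ) := by
          rw [smul_sub, smul_sub, sub_smul, ← h]
          abel
        rw [e]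
        exact V.sub_mem (V.smul_mem _ hl'.2) (V.smul_mem _ hl.2)
      have h3 := scal_inj hμ h2
      have h4 : s = s' := Units.ext (sub_eq_zero.1 h3)
      subst h4
      rw [Prod.mk.injEq]
      exact ⟨rfl, smul_cancel s.ne_zero h⟩
  have h2 : (out Λ V).card = ((out Λ V).filter fun l => l ∈ V').card + (out Λ V').card := by
    rw [← Finset.card_filter_add_card_filter_not (s := out Λ V) (fun l => l ∈ V')]
    congr 2
    ext l
    rw [Finset.mem_filter, mem_out, mem_out]
    refine ⟨fun h => ⟨h.1.1, h.2⟩, fun h => ⟨⟨h.1, fun h' => h.2 ?_⟩, h.2⟩⟩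
    exact (le_sup_left : V ≤ V') h'
  have hq2 := hq.out.two_le
  obtain ⟨m, rfl⟩ : ∃ m, q = m + 2 := ⟨q - 2, by omega⟩
  have e1 : m + 2 - 1 = m + 1 := rfl
  rw [e1] at h1
  nlinarith

/-! ### Collapsing a plane -/

/-- `A Y ≥ k²` and `Y ≥ k (A - 1)` imply `Y ≥ k² / (√k + 1)`. -/
theorem real_aux {k A Y : ℝ} (hk : 0 ≤ k) (hA : 0 ≤ A) (h1 : k ^ 2 ≤ A * Y) (h2 : k * (A - 1) ≤ Y) :
    k ^ 2 / (Real.sqrt k + 1) ≤ Y := by
  have hs := Real.sqrt_nonneg k
  have hss := Real.mul_self_sqrt hk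
  set s := Real.sqrt k with hs'
  rw [div_le_iff₀ (by positivity)]
  rcases le_total A (s + 1) with h | h
  · have hY : 0 ≤ Y ∨ Y < 0 := le_or_gt _ _
    rcases hY with hY | hY
    · nlinarith
    · nlinarith [mul_nonneg hA (neg_nonneg.2 hY.le)]
  · have h3 : k * s ≤ Y := le_trans (mul_le_mul_of_nonneg_left (by linarith) hk) h2
    have h4 : k * s * (s + 1) ≤ Y * (s + 1) := mul_le_mul_of_nonneg_right h3 (by linarith)
    nlinarith [mul_nonneg hk hs]

theorem collapse {Λ : Finset E} (hΛ : Scal q Λ) {V : Submodule (ZMod q) E} {c1 c2 : E}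
    (h1V : c1 ∉ V) (h2V : c2 ∉ V ⊔ Submodule.span (ZMod q) {c1})
    (hno : ∀ l ∈ Λ, l ∈ (V ⊔ Submodule.span (ZMod q) {c1}) ⊔ Submodule.span (ZMod q) {c2} →
      l ∈ V ⊔ Submodule.span (ZMod q) {c1} ∨ l ∈ V ⊔ Submodule.span (ZMod q) {c2})
    (hrep : ∀ s t : ZMod q, s ≠ 0 → t ≠ 0 → ∃ l3 ∈ Λ, ∃ l4 ∈ Λ,
      l3 + l4 - (s • c1 + t • c2) ∈ V ∧ l3 - s • c1 ∉ V ∧ l3 - t • c2 ∉ V) :
    ((img0 Λ ((V ⊔ Submodule.span (ZMod q) {c1}) ⊔ Submodule.span (ZMod q) {c2})).card : ℝ) +
      ((q : ℝ) - 1) ^ 2 / (Real.sqrt ((q : ℝ) - 1) + 1) ≤ ((img0 Λ V).card : ℝ) := by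
  classical
  set V1 := V ⊔ Submodule.span (ZMod q) {c1} with hV1
  set V' := V1 ⊔ Submodule.span (ZMod q) {c2} with hV'
  have hVV1 : V ≤ V1 := le_sup_left
  have hV1V' : V1 ≤ V' := le_sup_left
  have hVV' : V ≤ V' := hVV1.trans hV1V'
  have hc1V' : c1 ∈ V' := hV1V' (by rw [hV1, mem_sup_span]; exact ⟨1, by simp⟩)
  have hc2V' : c2 ∈ V' := by rw [hV', mem_sup_span]; exact ⟨1, by simp⟩
  have hc2V : c2 ∉ V := fun h => h2V (hVV1 h)
  have hindep : ∀ s t : ZMod q, s • c1 + t • c2 ∈ V → s = 0 ∧ t = 0 := by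
    intro s t h
    have ht : t = 0 := by
      apply scal_inj h2V
      rw [hV1, mem_sup_span]
      refine ⟨-s, ?_⟩
      have e : t • c2 - -s • c1 = s • c1 + t • c2 := by rw [neg_smul]; abel
      rw [e]; exact h
    subst ht
    rw [zero_smul, add_zero] at h
    exact ⟨scal_inj h1V h, rfl⟩
  let π : (E ⧸ V) →ₗ[ZMod q] (E ⧸ V') := Submodule.factor hVV'
  have hπ : ∀ x : E, π (V.mkQ x) = V'.mkQ x := fun x => rfl
  -- fibres of `π` on `img Λ V`
  let a : (E ⧸ V') → ℕ := fun d => ((img Λ V).filter fun u => π u = d).card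
  have ha1 : ∀ d ∈ img0 Λ V', 1 ≤ a d := by
    intro d hd
    obtain ⟨⟨l, hl, rfl⟩, _⟩ := mem_img0.1 hd
    apply Finset.card_pos.2
    exact ⟨V.mkQ l, Finset.mem_filter.2 ⟨mem_img.2 ⟨l, hl, rfl⟩, hπ l⟩⟩
  have hsum : ∑ d ∈ img0 Λ V', a d ≤ (img0 Λ V).card := by
    rw [← Finset.card_biUnion]
    · apply Finset.card_le_card
      intro u hu
      rw [Finset.mem_biUnion] at hu
      obtain ⟨d, hd, hu⟩ := hu
      rw [Finset.mem_filter] at hu
      rw [mem_img0]
      refine ⟨mem_img.1 hu.1, fun h0 => ?_⟩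
      rw [h0, map_zero] at hu
      exact (mem_img0.1 hd).2 hu.2.symm
    · intro d _ d' _ hdd
      rw [Function.onFun, Finset.disjoint_left]
      intro u hu hu'
      exact hdd ((Finset.mem_filter.1 hu).2.symm.trans (Finset.mem_filter.1 hu').2)
  set Y : ℕ := ∑ d ∈ img0 Λ V', (a d - 1) with hY
  have hY1 : (img0 Λ V').card + Y ≤ (img0 Λ V).card := by
    refine le_trans (le_of_eq ?_) hsum
    rw [hY, Finset.card_eq_sum_ones, ← Finset.sum_add_distrib]
    exact Finset.sum_congr rfl fun d hd => by have := ha1 d hd; omega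
  -- the pairs
  let D : Finset ((E ⧸ V) × (E ⧸ V)) := ((img Λ V) ×ˢ (img Λ V)).filter fun u =>
    π u.1 = π u.2 ∧ π u.1 ≠ 0 ∧ u.1 ≠ u.2
  have hD1 : (q - 1) * (q - 1) ≤ D.card := by
    rw [← card_units_sub (q := q), ← Finset.card_univ, ← Finset.card_product]
    choose l3 hl3 l4 hl4 hr1 hr2 hr3 using fun s t : (ZMod q)ˣ => hrep s t s.ne_zero t.ne_zero
    have hdiff : ∀ s t : (ZMod q)ˣ, V.mkQ (l3 s t) - V.mkQ (-l4 s t) =
        V.mkQ ((s : ZMod q) • c1 + (t : ZMod q) • c2) := by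
      intro s t
      rw [← map_sub, sub_neg_eq_add, mkQ_eq]
      exact hr1 s t
    refine Finset.card_le_card_of_injOn
      (fun u => (V.mkQ (l3 u.1 u.2), V.mkQ (-l4 u.1 u.2))) ?_ ?_
    · rintro ⟨s, t⟩ _
      simp only
      rw [Finset.mem_coe, Finset.mem_filter, Finset.mem_product]
      have hneg : -l4 s t ∈ Λ := by
        have := hΛ (-1) (neg_ne_zero.2 one_ne_zero) _ (hl4 s t)
        rwa [neg_one_smul] at this
      have hne : V.mkQ (l3 s t) ≠ V.mkQ (-l4 s t) := by
        intro h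
        have h5 := hdiff s t
        rw [h, sub_self] at h5
        have h6 := (mkQ_eq_zero.1 h5.symm)
        exact s.ne_zero (hindep _ _ h6).1
      have hl3V' : l3 s t ∉ V' := by
        intro h3
        have h4 : l4 s t ∈ V' := by
          have e : l4 s t = (l3 s t + l4 s t - ((s : ZMod q) • c1 + (t : ZMod q) • c2)) +
            ((s : ZMod q) • c1 + (t : ZMod q) • c2) - l3 s t := by abel
          rw [e]
          exact V'.sub_mem (V'.add_mem (hVV' (hr1 s t))
            (V'.add_mem (V'.smul_mem _ hc1V') (V'.smul_mem _ hc2V'))) h3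
        have hk3 := hno _ (hl3 s t) h3
        have hk4 := hno _ (hl4 s t) h4
        rw [hV1, mem_sup_span, mem_sup_span] at hk3 hk4
        have hz := hr1 s t
        rcases hk3 with ⟨α, hα⟩ | ⟨β, hβ⟩
        · rcases hk4 with ⟨α', hα'⟩ | ⟨β', hβ'⟩
          · have h7 : (α + α' - s) • c1 + (-(t : ZMod q)) • c2 ∈ V := by
              have e : (α + α' - (s : ZMod q)) • c1 + (-(t : ZMod q)) • c2 =
                (l3 s t + l4 s t - ((s : ZMod q) • c1 + (t : ZMod q) • c2)) -
                  (l3 s t - α • c1) - (l4 s t - α' • c1) := by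
                rw [sub_smul, add_smul, neg_smul]; abel
              rw [e]
              exact V.sub_mem (V.sub_mem hz hα) hα'
            exact t.ne_zero (neg_eq_zero.1 (hindep _ _ h7).2)
          · have h7 : (α - s) • c1 + (β' - (t : ZMod q)) • c2 ∈ V := by
              have e : (α - (s : ZMod q)) • c1 + (β' - (t : ZMod q)) • c2 =
                (l3 s t + l4 s t - ((s : ZMod q) • c1 + (t : ZMod q) • c2)) -
                  (l3 s t - α • c1) - (l4 s t - β' • c2) := by
                rw [sub_smul, sub_smul]; abel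
              rw [e]
              exact V.sub_mem (V.sub_mem hz hα) hβ'
            have h8 := sub_eq_zero.1 (hindep _ _ h7).1
            rw [h8] at hα
            exact hr2 s t hα
        · rcases hk4 with ⟨α', hα'⟩ | ⟨β', hβ'⟩
          · have h7 : (α' - s) • c1 + (β - (t : ZMod q)) • c2 ∈ V := by
              have e : (α' - (s : ZMod q)) • c1 + (β - (t : ZMod q)) • c2 =
                (l3 s t + l4 s t - ((s : ZMod q) • c1 + (t : ZMod q) • c2)) -
                  (l3 s t - β • c2) - (l4 s t - α' • c1) := by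
                rw [sub_smul, sub_smul]; abel
              rw [e]
              exact V.sub_mem (V.sub_mem hz hβ) hα'
            have h8 := sub_eq_zero.1 (hindep _ _ h7).2
            rw [h8] at hβ
            exact hr3 s t hβ
          · have h7 : (-(s : ZMod q)) • c1 + (β + β' - (t : ZMod q)) • c2 ∈ V := by
              have e : (-(s : ZMod q)) • c1 + (β + β' - (t : ZMod q)) • c2 =
                (l3 s t + l4 s t - ((s : ZMod q) • c1 + (t : ZMod q) • c2)) -
                  (l3 s t - β • c2) - (l4 s t - β' • c2) := by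
                rw [sub_smul, add_smul, neg_smul]; abel
              rw [e]
              exact V.sub_mem (V.sub_mem hz hβ) hβ'
            exact s.ne_zero (neg_eq_zero.1 (hindep _ _ h7).1)
      refine ⟨⟨mem_img.2 ⟨_, hl3 s t, rfl⟩, mem_img.2 ⟨_, hneg, rfl⟩⟩, ?_, ?_, hne⟩
      · rw [hπ, hπ, mkQ_eq]
        have e : l3 s t - -l4 s t = (l3 s t + l4 s t - ((s : ZMod q) • c1 + (t : ZMod q) • c2)) +
            ((s : ZMod q) • c1 + (t : ZMod q) • c2) := by abel
        rw [e]
        exact V'.add_mem (hVV' (hr1 s t)) (V'.add_mem (V'.smul_mem _ hc1V') (V'.smul_mem _ hc2V'))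
      · rw [hπ]
        exact fun h => hl3V' (mkQ_eq_zero.1 h)
    · rintro ⟨s, t⟩ _ ⟨s', t'⟩ _ h
      simp only [Prod.mk.injEq] at h
      have h5 := hdiff s t
      rw [h.1, h.2, hdiff s' t', mkQ_eq] at h5
      have h6 : ((s' : ZMod q) - s) • c1 + ((t' : ZMod q) - t) • c2 ∈ V := by
        have e : ((s' : ZMod q) - s) • c1 + ((t' : ZMod q) - t) • c2 =
          ((s' : ZMod q) • c1 + (t' : ZMod q) • c2) - ((s : ZMod q) • c1 + (t : ZMod q) • c2) := by
          rw [sub_smul, sub_smul]; abel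
        rw [e]; exact h5
      obtain ⟨h7, h8⟩ := hindep _ _ h6
      rw [Prod.mk.injEq]
      exact ⟨Units.ext (sub_eq_zero.1 h7).symm, Units.ext (sub_eq_zero.1 h8).symm⟩
  -- the number of pairs is at most `A Y`
  have hq2 := hq.out.two_le
  have hDpos : 0 < D.card := lt_of_lt_of_le (Nat.mul_pos (by omega) (by omega)) hD1
  have hne : (img0 Λ V').Nonempty := by
    obtain ⟨u, hu⟩ := Finset.card_pos.1 hDpos
    rw [Finset.mem_filter, Finset.mem_product] at hu
    obtain ⟨l, hl, h⟩ := mem_img.1 hu.1.1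
    refine ⟨π u.1, mem_img0.2 ⟨⟨l, hl, ?_⟩, hu.2.2.1⟩⟩
    rw [← hπ, h]
  obtain ⟨d0, hd0, hmax⟩ := Finset.exists_max_image (img0 Λ V') a hne
  have hD2 : D.card ≤ a d0 * Y := by
    have hsub : D ⊆ (img0 Λ V').biUnion fun d =>
        ((img Λ V).filter fun u => π u = d).offDiag := by
      intro u hu
      rw [Finset.mem_filter, Finset.mem_product] at hu
      rw [Finset.mem_biUnion]
      obtain ⟨l, hl, h⟩ := mem_img.1 hu.1.1
      refine ⟨π u.1, mem_img0.2 ⟨⟨l, hl, by rw [← hπ, h]⟩, hu.2.2.1⟩, ?_⟩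
      rw [Finset.mem_offDiag, Finset.mem_filter, Finset.mem_filter]
      exact ⟨⟨hu.1.1, rfl⟩, ⟨hu.1.2, hu.2.1.symm⟩, hu.2.2.2⟩
    refine (Finset.card_le_card hsub).trans (Finset.card_biUnion_le.trans ?_)
    rw [hY, Finset.mul_sum]
    refine Finset.sum_le_sum fun d hd => ?_
    rw [Finset.offDiag_card]
    have h3 : ((img Λ V).filter fun u => π u = d).card = a d := rfl
    rw [h3]
    have h4 := ha1 d hd
    have h5 := hmax d hd
    have h6 : a d * a d - a d = a d * (a d - 1) := by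
      rw [Nat.mul_sub, mul_one]
    rw [h6]
    exact Nat.mul_le_mul_right _ h5
  have hY2 : (q - 1) * (a d0 - 1) ≤ Y := by
    have hd0' := (mem_img0.1 hd0).2
    rw [← card_units_sub (q := q), ← Finset.card_univ, hY]
    have hinj : Function.Injective fun s : (ZMod q)ˣ => (s : ZMod q) • d0 := by
      intro s s' h
      have h1 : ((s : ZMod q) - s') • d0 = 0 := by
        rw [sub_smul]; exact sub_eq_zero.2 h
      rcases smul_eq_zero.1 h1 with h2 | h2
      · exact Units.ext (sub_eq_zero.1 h2)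
      · exact absurd h2 hd0'
    calc (univ : Finset (ZMod q)ˣ).card * (a d0 - 1)
        = ∑ _s : (ZMod q)ˣ, (a d0 - 1) := by rw [Finset.sum_const, smul_eq_mul]
      _ ≤ ∑ s : (ZMod q)ˣ, (a ((s : ZMod q) • d0) - 1) := by
          refine Finset.sum_le_sum fun s _ => Nat.sub_le_sub_right ?_ 1
          refine Finset.card_le_card_of_injOn (fun u => (s : ZMod q) • u) ?_ ?_
          · intro u hu
            have hu' := Finset.mem_filter.1 (Finset.mem_coe.1 hu)
            obtain ⟨l, hl, h⟩ := mem_img.1 hu'.1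
            rw [Finset.mem_coe, Finset.mem_filter]
            refine ⟨mem_img.2 ⟨(s : ZMod q) • l, hΛ _ s.ne_zero _ hl, ?_⟩, ?_⟩
            · rw [map_smul, h]
            · rw [map_smul, hu'.2]
          · intro u _ u' _ h
            exact smul_cancel s.ne_zero h
      _ = ∑ d ∈ (univ : Finset (ZMod q)ˣ).map ⟨_, hinj⟩, (a d - 1) := by
          rw [Finset.sum_map]; rfl
      _ ≤ ∑ d ∈ img0 Λ V', (a d - 1) := by
          apply Finset.sum_le_sum_of_subset
          intro d hd
          rw [Finset.mem_map] at hd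
          obtain ⟨s, _, rfl⟩ := hd
          obtain ⟨⟨l, hl, h⟩, h0⟩ := mem_img0.1 hd0
          refine mem_img0.2 ⟨⟨(s : ZMod q) • l, hΛ _ s.ne_zero _ hl, ?_⟩, ?_⟩
          · rw [map_smul, h]; rfl
          · exact smul_ne_zero s.ne_zero h0
  have hA1 := ha1 d0 hd0
  have hqr : ((q - 1 : ℕ) : ℝ) = (q : ℝ) - 1 := by
    rw [Nat.cast_sub (by omega)]; simp
  have h1q : (0 : ℝ) ≤ (q : ℝ) - 1 := by rw [← hqr]; positivity
  have key := real_aux (k := (q : ℝ) - 1) (A := (a d0 : ℝ)) (Y := (Y : ℝ)) h1q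
    (by positivity) (by
      rw [← hqr]
      have := hD1.trans hD2
      rw [sq]
      exact_mod_cast this) (by
      rw [← hqr]
      have e : (a d0 : ℝ) - 1 = ((a d0 - 1 : ℕ) : ℝ) := by
        rw [Nat.cast_sub hA1]; simp
      rw [e]
      exact_mod_cast hY2)
  have hY1' : ((img0 Λ V').card : ℝ) + (Y : ℝ) ≤ ((img0 Λ V).card : ℝ) := by exact_mod_cast hY1
  linarith

end

end Pool.Agent.K1H68.LP
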