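import Mathlib
import Pool.Agent.Y387.SF.Base

/-!
# Zeros of short sums of characters of a finite abelian group without small prime factors

If all prime factors of `|A|` are at least `P` then a nonzero combination of `k` characters vanishes
in at most `|A| (k - 1) / P` points. (For groups of prime order this is the theorem of Chebotarev.)
-/

set_option autoImplicit false

namespace Pool.Agent.K1H68.LP

open Finset Pool.Agent.Y387.SF

section

variable {A : Type*} [AddCommGroup A] [Fintype A]

/-- a linear combination of characters -/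
noncomputable def cs (s : Finset (AddChar A ℂ)) (k : AddChar A ℂ → ℂ) (a : A) : ℂ :=
  ∑ ψ ∈ s, k ψ * ψ a

theorem char_ne_zero (ψ : AddChar A ℂ) (a : A) : ψ a ≠ 0 := by
  intro h
  have := AddChar.map_add_eq_mul ψ a (-a)
  rw [h, zero_mul, add_neg_cancel, AddChar.map_zero_eq_one] at this
  exact one_ne_zero this

/-- a primitive character of `ZMod l` and its values -/
theorem exists_char (l : ℕ) [hl : Fact l.Prime] : ∃ χ : AddChar (ZMod l) ℂ, χ ≠ 1 ∧
    ∀ z : ℂ, z ^ l = 1 → ∃ j : ZMod l, z = χ j := by
  have hζ : IsPrimitiveRoot (Complex.exp (2 * Real.pi * Complex.I / l)) l :=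
    Complex.isPrimitiveRoot_exp l hl.out.ne_zero
  obtain ⟨ζ, hζd⟩ : ∃ ζ : ℂ, ζ = Complex.exp (2 * Real.pi * Complex.I / l) := ⟨_, rfl⟩
  rw [← hζd] at hζ
  refine ⟨AddChar.zmodChar l hζ.pow_eq_one, ?_, ?_⟩
  · intro h
    have h1 : AddChar.zmodChar l hζ.pow_eq_one (1 : ZMod l) = 1 := by rw [h]; rfl
    have h2 : (1 : ZMod l).val = 1 := by
      have : Fact (1 < l) := ⟨hl.out.one_lt⟩
      exact ZMod.val_one l
    rw [AddChar.zmodChar_apply, h2, pow_one] at h1
    exact hζ.ne_one hl.out.one_lt h1
  · intro z hz
    obtain ⟨i, hi, hi'⟩ := hζ.eq_pow_of_pow_eq_one hz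
    refine ⟨(i : ZMod l), ?_⟩
    rw [AddChar.zmodChar_apply, ZMod.val_natCast_of_lt hi, hi']

theorem exists_step {P : ℕ} (hP : ∀ l : ℕ, l.Prime → l ∣ Fintype.card A → P ≤ l)
    {H : AddSubgroup A} (hH : H ≠ ⊤) :
    ∃ (l : ℕ) (d : A), l.Prime ∧ P ≤ l ∧ d ∉ H ∧ l • d ∈ H := by
  classical
  have h1 : Nat.card (A ⧸ H) ≠ 1 := by
    intro h
    apply hH
    rw [← AddSubgroup.index_eq_one]
    exact h
  obtain ⟨l, hl, hdvd⟩ := Nat.exists_prime_and_dvd h1
  have : Fact l.Prime := ⟨hl⟩
  obtain ⟨x, hx⟩ := exists_prime_addOrderOf_dvd_card' (G := A ⧸ H) l hdvd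
  obtain ⟨d, rfl⟩ := QuotientAddGroup.mk_surjective x
  refine ⟨l, d, hl, ?_, ?_, ?_⟩
  · apply hP l hl
    rw [← Nat.card_eq_fintype_card]
    exact hdvd.trans (AddSubgroup.card_quotient_dvd_card H)
  · intro h
    rw [(QuotientAddGroup.eq_zero_iff d).2 h, addOrderOf_zero] at hx
    exact hl.one_lt.ne hx
  · rw [← QuotientAddGroup.eq_zero_iff, QuotientAddGroup.mk_nsmul, ← hx]
    exact addOrderOf_nsmul_eq_zero _

open Classical in
theorem zeros_le {P : ℕ} (hP : ∀ l : ℕ, l.Prime → l ∣ Fintype.card A → P ≤ l)
    (H : AddSubgroup A) : ∀ (s : Finset (AddChar A ℂ)) (k : AddChar A ℂ → ℂ),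
      (∀ ψ ∈ s, ∀ φ ∈ s, ∀ h ∈ H, ψ h = φ h) → (∃ a, cs s k a ≠ 0) →
      P * (univ.filter fun a : A => cs s k a = 0).card + Fintype.card A ≤
        Fintype.card A * s.card := by
  classical
  induction H using WellFoundedGT.induction with
  | ind H ih =>
    intro s k hs hne
    obtain ⟨a0, ha0⟩ := hne
    obtain ⟨ψ0, hψ0, _⟩ := Finset.exists_ne_zero_of_sum_ne_zero ha0
    by_cases hH : H = ⊤
    · subst hH
      have hs1 : s = {ψ0} := by
        rw [Finset.eq_singleton_iff_unique_mem]
        refine ⟨hψ0, fun φ hφ => ?_⟩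
        ext a
        exact hs φ hφ ψ0 hψ0 a (AddSubgroup.mem_top a)
      have hk : k ψ0 ≠ 0 := by
        intro h
        apply ha0
        rw [cs, hs1, Finset.sum_singleton, h, zero_mul]
      have hz : (univ.filter fun a : A => cs s k a = 0) = ∅ := by
        rw [Finset.filter_eq_empty_iff]
        intro a _
        rw [cs, hs1, Finset.sum_singleton]
        exact mul_ne_zero hk (char_ne_zero _ _)
      rw [hz, hs1]
      simp
    · obtain ⟨l, d, hl, hPl, hdH, hld⟩ := exists_step hP hH
      have : Fact l.Prime := ⟨hl⟩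
      obtain ⟨χ, hχ, hroots⟩ := exists_char l
      have hj : ∀ ψ : AddChar A ℂ, ∃ j : ZMod l, ψ ∈ s → ψ d = ψ0 d * χ j := by
        intro ψ
        by_cases hψ : ψ ∈ s
        · have h1 : (ψ d / ψ0 d) ^ l = 1 := by
            rw [div_pow, ← AddChar.map_nsmul_eq_pow, ← AddChar.map_nsmul_eq_pow,
              hs ψ hψ ψ0 hψ0 _ hld]
            exact div_self (char_ne_zero _ _)
          obtain ⟨j, hj⟩ := hroots _ h1
          exact ⟨j, fun _ => by rw [← hj, mul_div_cancel₀ _ (char_ne_zero _ _)]⟩
        · exact ⟨0, fun h => absurd h hψ⟩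
      choose j hj using hj
      have key : ∀ (a : A) (t : ZMod l), cs s k (a + t.val • d) =
          ψ0 d ^ t.val * ft χ (fun i => cs (s.filter fun ψ => j ψ = i) k a) t := by
        intro a t
        unfold ft cs
        rw [← Finset.sum_fiberwise s j, Finset.mul_sum]
        refine Finset.sum_congr rfl fun i _ => ?_
        rw [Finset.sum_mul, Finset.mul_sum]
        refine Finset.sum_congr rfl fun ψ hψ => ?_
        rw [Finset.mem_filter] at hψ
        rw [AddChar.map_add_eq_mul, AddChar.map_nsmul_eq_pow, hj ψ hψ.1, hψ.2, mul_comm t i,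
          char_mul, mul_pow]
        ring
      have hsum0 : ∀ a : A, cs s k a = ∑ i : ZMod l, cs (s.filter fun ψ => j ψ = i) k a := by
        intro a
        unfold cs
        rw [← Finset.sum_fiberwise s j]
      obtain ⟨j0, _, hj0⟩ := Finset.exists_ne_zero_of_sum_ne_zero (by rw [← hsum0]; exact ha0)
      -- the induction hypothesis
      set H' := H ⊔ AddSubgroup.zmultiples d with hH'
      have hHH' : H < H' := by
        refine lt_of_le_of_ne le_sup_left fun h => hdH ?_
        rw [h, hH']
        exact AddSubgroup.mem_sup_right (AddSubgroup.mem_zmultiples d)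
      have hih := ih H' hHH' (s.filter fun ψ => j ψ = j0) k (by
        intro ψ hψ φ hφ h hh
        rw [Finset.mem_filter] at hψ hφ
        rw [hH', AddSubgroup.mem_sup] at hh
        obtain ⟨y, hy, z, hz, rfl⟩ := hh
        obtain ⟨m, rfl⟩ := AddSubgroup.mem_zmultiples_iff.1 hz
        rw [AddChar.map_add_eq_mul, AddChar.map_add_eq_mul, hs ψ hψ.1 φ hφ.1 y hy,
          AddChar.map_zsmul_eq_zpow, AddChar.map_zsmul_eq_zpow, hj ψ hψ.1, hj φ hφ.1, hψ.2, hφ.2])
        ⟨a0, hj0⟩
      set s0 := s.filter fun ψ => j ψ = j0 with hs0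
      set Z := (univ.filter fun a : A => cs s k a = 0) with hZ
      set Z0 := (univ.filter fun a : A => cs s0 k a = 0) with hZ0
      set J := s.image j with hJ
      -- count on each line
      have hline : ∀ a : A, (univ.filter fun t : ZMod l => cs s k (a + t.val • d) = 0).card + 1 ≤
          J.card + (if cs s0 k a = 0 then l else 0) := by
        intro a
        by_cases ha : cs s0 k a = 0
        · rw [if_pos ha]
          have h1 : (univ.filter fun t : ZMod l => cs s k (a + t.val • d) = 0).card ≤ l := by
            refine (Finset.card_filter_le _ _).trans ?_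
            rw [Finset.card_univ, ZMod.card]
          have h2 : 1 ≤ J.card := Finset.card_pos.2 ⟨j ψ0, Finset.mem_image_of_mem _ hψ0⟩
          omega
        · rw [if_neg ha]
          have hne : (fun i => cs (s.filter fun ψ => j ψ = i) k a) ≠ 0 := by
            intro h
            exact ha (congrFun h j0)
          have h1 := unc hχ hne
          have h2 : (univ.filter fun i : ZMod l => cs (s.filter fun ψ => j ψ = i) k a ≠ 0).card ≤
              J.card := by
            apply Finset.card_le_card
            intro i hi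
            rw [Finset.mem_filter] at hi
            obtain ⟨ψ, hψ, _⟩ := Finset.exists_ne_zero_of_sum_ne_zero hi.2
            rw [Finset.mem_filter] at hψ
            exact Finset.mem_image.2 ⟨ψ, hψ.1, hψ.2⟩
          have h3 : (univ.filter fun t : ZMod l =>
              ft χ (fun i => cs (s.filter fun ψ => j ψ = i) k a) t ≠ 0).card +
              (univ.filter fun t : ZMod l => cs s k (a + t.val • d) = 0).card = l := by
            have h4 : (univ.filter fun t : ZMod l => cs s k (a + t.val • d) = 0) =
                univ.filter fun t : ZMod l =>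
                  ¬ ft χ (fun i => cs (s.filter fun ψ => j ψ = i) k a) t ≠ 0 := by
              apply Finset.filter_congr
              intro t _
              rw [key a t, not_not]
              constructor
              · intro h
                exact (mul_eq_zero.1 h).resolve_left (pow_ne_zero _ (char_ne_zero _ _))
              · intro h
                rw [h, mul_zero]
            rw [h4, Finset.card_filter_add_card_filter_not, Finset.card_univ, ZMod.card]
          have h5 : (univ.filter fun i : ZMod l =>
              (fun i => cs (s.filter fun ψ => j ψ = i) k a) i ≠ 0).card ≤ J.card := h2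
          omega
      -- double counting
      have hdc : ∑ a : A, (univ.filter fun t : ZMod l => cs s k (a + t.val • d) = 0).card =
          l * Z.card := by
        simp only [Finset.card_filter]
        rw [Finset.sum_comm]
        have h1 : ∀ t : ZMod l, ∑ a : A, (if cs s k (a + t.val • d) = 0 then 1 else 0) =
            Z.card := by
          intro t
          rw [hZ, Finset.card_filter]
          exact Fintype.sum_equiv (Equiv.addRight (t.val • d)) _ _ fun a => rfl
        rw [Finset.sum_congr rfl fun t _ => h1 t, Finset.sum_const, Finset.card_univ, ZMod.card,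
          smul_eq_mul]
      have hZ0c : ∑ a : A, (if cs s0 k a = 0 then l else 0) = l * Z0.card := by
        rw [hZ0, Finset.card_filter, Finset.mul_sum]
        refine Finset.sum_congr rfl fun a _ => ?_
        split_ifs <;> simp
      have htot : l * Z.card + Fintype.card A ≤ Fintype.card A * J.card + l * Z0.card := by
        have h1 := Finset.sum_le_sum fun (a : A) (_ : a ∈ univ) => hline a
        rw [Finset.sum_add_distrib, Finset.sum_add_distrib, hdc, hZ0c, Finset.sum_const,
          Finset.sum_const, Finset.card_univ, smul_eq_mul, smul_eq_mul, mul_one] at h1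
        exact h1
      have hcard : s0.card + J.card ≤ s.card + 1 := by
        have h1 : s.card = ∑ i ∈ J, (s.filter fun ψ => j ψ = i).card :=
          Finset.card_eq_sum_card_fiberwise fun ψ hψ => Finset.mem_image_of_mem _ hψ
        have hj0J : j0 ∈ J := by
          obtain ⟨ψ, hψ, _⟩ := Finset.exists_ne_zero_of_sum_ne_zero hj0
          rw [Finset.mem_filter] at hψ
          exact Finset.mem_image.2 ⟨ψ, hψ.1, hψ.2⟩
        rw [← Finset.add_sum_erase _ _ hj0J] at h1
        have h2 : (J.erase j0).card ≤ ∑ i ∈ J.erase j0, (s.filter fun ψ => j ψ = i).card := by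
          rw [Finset.card_eq_sum_ones]
          refine Finset.sum_le_sum fun i hi => ?_
          obtain ⟨ψ, hψ, hψi⟩ := Finset.mem_image.1 (Finset.mem_of_mem_erase hi)
          exact Finset.card_pos.2 ⟨ψ, Finset.mem_filter.2 ⟨hψ, hψi⟩⟩
        rw [Finset.card_erase_of_mem hj0J] at h2
        have h3 : 1 ≤ J.card := Finset.card_pos.2 ⟨j0, hj0J⟩
        have h4 : (s.filter fun ψ => j ψ = j0).card = s0.card := rfl
        rw [h4] at h1
        omega
      have hJpos : 1 ≤ J.card := Finset.card_pos.2 ⟨j ψ0, Finset.mem_image_of_mem _ hψ0⟩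
      -- conclusion
      have hlpos : 0 < l := hl.pos
      generalize Fintype.card A = n at *
      generalize Z.card = z at *
      generalize Z0.card = z0 at *
      generalize s0.card = b at *
      generalize s.card = c at *
      obtain ⟨m, hm⟩ : ∃ m, J.card = m + 1 := ⟨J.card - 1, by omega⟩
      rw [hm] at htot hcard
      -- l z ≤ n m + l z0,   P z0 + n ≤ n b,   b + m ≤ c
      have e1 : l * z ≤ n * m + l * z0 := by nlinarith
      have e2 : b + m ≤ c := by omega
      have e3 : P * (l * z) ≤ P * (n * m + l * z0) := Nat.mul_le_mul_left _ e1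
      have e4 : P * (n * m) ≤ l * (n * m) := Nat.mul_le_mul_right _ hPl
      have e5 : l * (P * z0 + n) ≤ l * (n * b) := Nat.mul_le_mul_left _ hih
      have e6 : l * (n * (b + m)) ≤ l * (n * c) :=
        Nat.mul_le_mul_left _ (Nat.mul_le_mul_left _ e2)
      have e7 : l * (P * z + n) ≤ l * (n * c) := by nlinarith
      exact Nat.le_of_mul_le_mul_left e7 hlpos

open Classical in
theorem common {P : ℕ} (hP : ∀ l : ℕ, l.Prime → l ∣ Fintype.card A → P ≤ l)
    {s1 s2 : Finset (AddChar A ℂ)} {k : AddChar A ℂ → ℂ}
    (h1 : ∃ a, cs s1 k a ≠ 0) (h2 : ∃ a, cs s2 k a ≠ 0) (hc : s1.card + s2.card ≤ P + 1) :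
    ∃ a, cs s1 k a ≠ 0 ∧ cs s2 k a ≠ 0 := by
  classical
  have hz : ∀ s : Finset (AddChar A ℂ), (∃ a, cs s k a ≠ 0) →
      P * (univ.filter fun a : A => cs s k a = 0).card + Fintype.card A ≤
        Fintype.card A * s.card := fun s hs =>
    zeros_le hP ⊥ s k (fun ψ _ φ _ h hh => by
      rw [AddSubgroup.mem_bot] at hh
      rw [hh, AddChar.map_zero_eq_one, AddChar.map_zero_eq_one]) hs
  have hz1 := hz s1 h1
  have hz2 := hz s2 h2
  by_contra hcon
  push Not at hcon
  have hcov : (univ : Finset A) ⊆ (univ.filter fun a : A => cs s1 k a = 0) ∪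
      (univ.filter fun a : A => cs s2 k a = 0) := by
    intro a _
    rw [Finset.mem_union, Finset.mem_filter, Finset.mem_filter]
    by_cases h : cs s1 k a = 0
    · exact Or.inl ⟨Finset.mem_univ _, h⟩
    · exact Or.inr ⟨Finset.mem_univ _, hcon a h⟩
  have h3 := (Finset.card_le_card hcov).trans (Finset.card_union_le _ _)
  rw [Finset.card_univ] at h3
  have hApos : 0 < Fintype.card A := Fintype.card_pos
  generalize Fintype.card A = n at *
  have e1 : P * n ≤ P * ((univ.filter fun a : A => cs s1 k a = 0).card +
      (univ.filter fun a : A => cs s2 k a = 0).card) := Nat.mul_le_mul_left _ h3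
  have e2 : n * (s1.card + s2.card) ≤ n * (P + 1) := Nat.mul_le_mul_left _ hc
  nlinarith

end

end Pool.Agent.K1H68.LP
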