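import Mathlib
import Pool.Agent.K1H68.LP.Comb

/-!
# The dimension of the span
-/

set_option autoImplicit false

namespace Pool.Agent.K1H68.LP

open Finset Module

section

variable {q : ℕ} [hq : Fact q.Prime] {E : Type*} [AddCommGroup E] [Module (ZMod q) E]
  [Module.Finite (ZMod q) E]

theorem finrank_sup_span {U : Submodule (ZMod q) E} {x : E} (hx : x ∉ U) :
    finrank (ZMod q) (U ⊔ Submodule.span (ZMod q) {x} : Submodule (ZMod q) E) =
      finrank (ZMod q) U + 1 := by
  have h1 := Submodule.finrank_sup_add_finrank_inf_eq U (Submodule.span (ZMod q) {x})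
  have hx0 : x ≠ 0 := fun h => hx (h ▸ U.zero_mem)
  have h2 : finrank (ZMod q) (Submodule.span (ZMod q) {x}) = 1 := finrank_span_singleton hx0
  have h3 : U ⊓ Submodule.span (ZMod q) {x} = ⊥ := by
    rw [eq_bot_iff]
    rintro y ⟨hy1, hy2⟩
    obtain ⟨s, rfl⟩ := Submodule.mem_span_singleton.1 hy2
    have hs := scal_inj hx hy1
    rw [hs, zero_smul]
    exact Submodule.zero_mem _
  rw [h3, finrank_bot, h2] at h1
  omega

open Classical in
/-- the Sylvester–Gallai doubling -/
theorem double {Λ : Finset E} (h0 : (0 : E) ∈ Λ) (hΛ : Scal q Λ) {V : Submodule (ZMod q) E}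
    (hSG : ∀ c1 ∈ Λ, ∀ c2 ∈ Λ, c1 ∉ V → c2 ∉ V ⊔ Submodule.span (ZMod q) {c1} →
      ∃ l ∈ Λ, l ∈ (V ⊔ Submodule.span (ZMod q) {c1}) ⊔ Submodule.span (ZMod q) {c2} ∧
        l ∉ V ⊔ Submodule.span (ZMod q) {c1} ∧ l ∉ V ⊔ Submodule.span (ZMod q) {c2}) :
    ∀ k : ℕ, ∃ U : Submodule (ZMod q) E, V ≤ U ∧
      ((∀ l ∈ Λ, l ∈ U) ∨ finrank (ZMod q) V + k ≤ finrank (ZMod q) U) ∧
      2 ^ finrank (ZMod q) U ≤ 2 ^ finrank (ZMod q) V *
        (((img Λ V).filter fun c => ∃ x ∈ U, V.mkQ x = c)).card := by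
  classical
  intro k
  induction k with
  | zero =>
    refine ⟨V, le_rfl, Or.inr le_rfl, ?_⟩
    refine Nat.le_mul_of_pos_right _ (Finset.card_pos.2 ⟨0, ?_⟩)
    rw [Finset.mem_filter]
    exact ⟨mem_img.2 ⟨0, h0, map_zero _⟩, 0, V.zero_mem, map_zero _⟩
  | succ k ih =>
    obtain ⟨U, hVU, hU, hcard⟩ := ih
    by_cases hall : ∀ l ∈ Λ, l ∈ U
    · exact ⟨U, hVU, Or.inl hall, hcard⟩
    · rcases hU with hU | hU
      · exact absurd hU hall
      push Not at hall
      obtain ⟨x, hxΛ, hxU⟩ := hall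
      have hxV : x ∉ V := fun h => hxU (hVU h)
      set U' := U ⊔ Submodule.span (ZMod q) {x} with hU'
      have hUU' : U ≤ U' := le_sup_left
      have hxU' : x ∈ U' := by rw [hU', mem_sup_span]; exact ⟨1, by simp⟩
      have hfr := finrank_sup_span hxU
      refine ⟨U', hVU.trans hUU', Or.inr (by rw [hfr]; omega), ?_⟩
      rw [hfr, pow_succ]
      set S := (img Λ V).filter fun c => ∃ y ∈ U, V.mkQ y = c with hS
      set S' := (img Λ V).filter fun c => ∃ y ∈ U', V.mkQ y = c with hS'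
      have hmemU : ∀ y : E, (∃ z ∈ U, V.mkQ z = V.mkQ y) ↔ y ∈ U := by
        intro y
        constructor
        · rintro ⟨z, hz, h⟩
          have h1 := hVU (mkQ_eq.1 h)
          have : y = z - (z - y) := by abel
          rw [this]
          exact U.sub_mem hz h1
        · intro h
          exact ⟨y, h, rfl⟩
      -- the new elements
      have hnew : ∀ c ∈ S, ∃ β : ZMod q, β ≠ 0 ∧ c + β • V.mkQ x ∈ img Λ V := by
        intro c hc
        rw [hS, Finset.mem_filter] at hc
        obtain ⟨⟨s, hs, rfl⟩, hcU⟩ := And.intro (mem_img.1 hc.1) hc.2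
        rw [hmemU] at hcU
        by_cases hsV : s ∈ V
        · refine ⟨1, one_ne_zero, ?_⟩
          rw [mkQ_eq_zero.2 hsV, zero_add, one_smul]
          exact mem_img.2 ⟨x, hxΛ, rfl⟩
        · have hx2 : x ∉ V ⊔ Submodule.span (ZMod q) {s} := by
            intro h
            obtain ⟨t, ht⟩ := mem_sup_span.1 h
            apply hxU
            have : x = (x - t • s) + t • s := by abel
            rw [this]
            exact U.add_mem (hVU ht) (U.smul_mem _ hcU)
          obtain ⟨l, hl, hl1, hl2, hl3⟩ := hSG s hs x hxΛ hsV hx2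
          obtain ⟨β, hβ⟩ := mem_sup_span.1 hl1
          obtain ⟨α, hα⟩ := mem_sup_span.1 hβ
          have hβ0 : β ≠ 0 := by
            rintro rfl
            rw [zero_smul, sub_zero] at hβ
            exact hl2 hβ
          have hα0 : α ≠ 0 := by
            rintro rfl
            apply hl3
            rw [mem_sup_span]
            exact ⟨β, by simpa using hα⟩
          refine ⟨α⁻¹ * β, mul_ne_zero (inv_ne_zero hα0) hβ0, ?_⟩
          refine mem_img.2 ⟨α⁻¹ • l, hΛ _ (inv_ne_zero hα0) _ hl, ?_⟩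
          have h4 : V.mkQ l = α • V.mkQ s + β • V.mkQ x := by
            rw [← map_smul, ← map_smul, ← map_add, mkQ_eq]
            have e : l - (α • s + β • x) = l - β • x - α • s := by abel
            rw [e]; exact hα
          rw [map_smul, h4, smul_add, smul_smul, smul_smul, inv_mul_cancel₀ hα0, one_smul]
      choose! β hβ0 hβ using hnew
      have hmkU : ∀ γ : ZMod q, ∀ c ∈ S, (∃ z ∈ U, V.mkQ z = c + γ • V.mkQ x) → γ = 0 := by
        rintro γ c hc ⟨z, hz, h⟩
        obtain ⟨y, hy, rfl⟩ := (Finset.mem_filter.1 hc).2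
        rw [← map_smul, ← map_add, mkQ_eq] at h
        apply scal_inj hxU
        have e : γ • x = z - y - (z - (y + γ • x)) := by abel
        rw [e]
        exact U.sub_mem (U.sub_mem hz hy) (hVU h)
      have hinj : Set.InjOn (fun c => c + β c • V.mkQ x) (S : Set (E ⧸ V)) := by
        intro c hc c' hc' h
        simp only at h
        have h1 : β c' - β c = 0 := by
          apply hmkU (β c' - β c) c' hc'
          obtain ⟨y, hy, hyc⟩ := (Finset.mem_filter.1 (Finset.mem_coe.1 hc)).2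
          refine ⟨y, hy, ?_⟩
          have e1 : c = c' + β c' • V.mkQ x - β c • V.mkQ x := by
            rw [← h]; abel
          rw [hyc, sub_smul, ← add_sub_assoc]
          exact e1
        have h2 : β c' = β c := sub_eq_zero.1 h1
        rw [h2] at h
        exact add_right_cancel h
      have hsub1 : S ⊆ S' := by
        intro c hc
        rw [hS, Finset.mem_filter] at hc
        rw [hS', Finset.mem_filter]
        obtain ⟨h1, y, hy, h2⟩ := hc
        exact ⟨h1, y, hUU' hy, h2⟩
      have hsub2 : S.image (fun c => c + β c • V.mkQ x) ⊆ S' := by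
        intro d hd
        obtain ⟨c, hc, rfl⟩ := Finset.mem_image.1 hd
        rw [hS', Finset.mem_filter]
        refine ⟨hβ c hc, ?_⟩
        obtain ⟨y, hy, rfl⟩ := (Finset.mem_filter.1 hc).2
        exact ⟨y + β (V.mkQ y) • x, U'.add_mem (hUU' hy) (U'.smul_mem _ hxU'),
          by rw [map_add, map_smul]⟩
      have hdisj : Disjoint S (S.image (fun c => c + β c • V.mkQ x)) := by
        rw [Finset.disjoint_left]
        intro d hd hd'
        obtain ⟨c, hc, rfl⟩ := Finset.mem_image.1 hd'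
        exact hβ0 c hc (hmkU _ c hc (Finset.mem_filter.1 hd).2)
      have hcard2 : 2 * S.card ≤ S'.card := by
        calc 2 * S.card = S.card + (S.image (fun c => c + β c • V.mkQ x)).card := by
              rw [Finset.card_image_of_injOn hinj]; ring
          _ = (S ∪ S.image (fun c => c + β c • V.mkQ x)).card :=
              (Finset.card_union_of_disjoint hdisj).symm
          _ ≤ S'.card := Finset.card_le_card (Finset.union_subset hsub1 hsub2)
      calc 2 ^ finrank (ZMod q) U * 2 ≤ 2 ^ finrank (ZMod q) V * S.card * 2 :=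
            Nat.mul_le_mul_right _ hcard
        _ = 2 ^ finrank (ZMod q) V * (2 * S.card) := by ring
        _ ≤ 2 ^ finrank (ZMod q) V * S'.card := Nat.mul_le_mul_left _ hcard2

theorem double_all {Λ : Finset E} (h0 : (0 : E) ∈ Λ) (hΛ : Scal q Λ) {V : Submodule (ZMod q) E}
    (hSG : ∀ c1 ∈ Λ, ∀ c2 ∈ Λ, c1 ∉ V → c2 ∉ V ⊔ Submodule.span (ZMod q) {c1} →
      ∃ l ∈ Λ, l ∈ (V ⊔ Submodule.span (ZMod q) {c1}) ⊔ Submodule.span (ZMod q) {c2} ∧
        l ∉ V ⊔ Submodule.span (ZMod q) {c1} ∧ l ∉ V ⊔ Submodule.span (ZMod q) {c2}) :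
    ∃ U : Submodule (ZMod q) E, V ≤ U ∧ (∀ l ∈ Λ, l ∈ U) ∧
      (finrank (ZMod q) U : ℝ) ≤ finrank (ZMod q) V + Real.logb 2 (Λ.card : ℝ) := by
  classical
  obtain ⟨U, hVU, hU, hcard⟩ := double h0 hΛ hSG (finrank (ZMod q) E + 1)
  refine ⟨U, hVU, ?_, ?_⟩
  · rcases hU with hU | hU
    · exact hU
    · have := Submodule.finrank_le U
      omega
  · have h1 : (((img Λ V).filter fun c => ∃ x ∈ U, V.mkQ x = c)).card ≤ Λ.card :=
      (Finset.card_filter_le _ _).trans Finset.card_image_le
    have h2 : 2 ^ finrank (ZMod q) U ≤ 2 ^ finrank (ZMod q) V * Λ.card :=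
      hcard.trans (Nat.mul_le_mul_left _ h1)
    have hpos : (0 : ℝ) < (Λ.card : ℝ) := by exact_mod_cast Finset.card_pos.2 ⟨0, h0⟩
    have h3 : (2 : ℝ) ^ finrank (ZMod q) U ≤ 2 ^ finrank (ZMod q) V * (Λ.card : ℝ) := by
      exact_mod_cast h2
    have h4 := Real.logb_le_logb_of_le (b := 2) (by norm_num) (by positivity) h3
    rw [Real.logb_mul (by positivity) hpos.ne', Real.logb_pow, Real.logb_pow,
      Real.logb_self_eq_one (by norm_num), mul_one, mul_one] at h4
    exact h4

omit [Module.Finite (ZMod q) E] in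
theorem out_mono {Λ : Finset E} {V V' : Submodule (ZMod q) E} (h : V ≤ V') :
    (out Λ V').card ≤ (out Λ V).card := by
  apply Finset.card_le_card
  intro l hl
  rw [mem_out] at hl ⊢
  exact ⟨hl.1, fun h' => hl.2 (h h')⟩

omit [Module.Finite (ZMod q) E] in
theorem img0_mono {Λ : Finset E} {V V' : Submodule (ZMod q) E} (h : V ≤ V') :
    (img0 Λ V').card ≤ (img0 Λ V).card := by
  classical
  have hsub : img0 Λ V' ⊆ (img0 Λ V).image (Submodule.factor h) := by
    intro c hc
    obtain ⟨⟨l, hl, rfl⟩, h0⟩ := mem_img0.1 hc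
    refine Finset.mem_image.2 ⟨V.mkQ l, mem_img0.2 ⟨⟨l, hl, rfl⟩, fun h1 => h0 ?_⟩, rfl⟩
    exact mkQ_eq_zero.2 (h (mkQ_eq_zero.1 h1))
  exact (Finset.card_le_card hsub).trans Finset.card_image_le

end

end Pool.Agent.K1H68.LP
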