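import Mathlib
import Pool.Agent.K1H68.LP.Dim

/-!
# The dimension of the span of a weighted set of linear forms
-/

set_option autoImplicit false

namespace Pool.Agent.K1H68.LP

open Finset Module

section

variable {q : ℕ} [hq : Fact q.Prime] {E : Type*} [AddCommGroup E] [Module (ZMod q) E]

/-- the weight of a class -/
noncomputable def wfib (w : E → ℕ) (Λ : Finset E) (V : Submodule (ZMod q) E) (μ : E) : ℕ :=
  ∑ l ∈ fib Λ V μ, w l

/-- the weight of the elements outside of `V` -/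
noncomputable def wout (w : E → ℕ) (Λ : Finset E) (V : Submodule (ZMod q) E) : ℕ :=
  ∑ l ∈ out Λ V, w l

theorem absorbW {Λ : Finset E} (hΛ : Scal q Λ) {w : E → ℕ}
    (hw : ∀ c : ZMod q, c ≠ 0 → ∀ l ∈ Λ, w l ≤ w (c • l)) {V : Submodule (ZMod q) E} {μ : E}
    (hμ : μ ∉ V) {P : ℕ} (hP2 : 2 ≤ P) (hPq : P ≤ q) (hf : P + 2 ≤ 2 * wfib w Λ V μ) :
    2 * wout w Λ (V ⊔ Submodule.span (ZMod q) {μ}) + P ^ 2 ≤ 2 * wout w Λ V := by
  classical
  set V' := V ⊔ Submodule.span (ZMod q) {μ} with hV'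
  have h1 : (q - 1) * wfib w Λ V μ ≤ ∑ l ∈ (out Λ V).filter (fun l => l ∈ V'), w l := by
    have hinj : Set.InjOn (fun t : (ZMod q)ˣ × E => (t.1 : ZMod q) • t.2)
        (((univ : Finset (ZMod q)ˣ) ×ˢ fib Λ V μ : Finset _) : Set ((ZMod q)ˣ × E)) := by
      rintro ⟨s, l⟩ hsl ⟨s', l'⟩ hsl' h
      have hl := (Finset.mem_product.1 (Finset.mem_coe.1 hsl)).2
      have hl' := (Finset.mem_product.1 (Finset.mem_coe.1 hsl')).2
      rw [mem_fib] at hl hl'
      simp only at h hl hl'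
      have h2 : ((s : ZMod q) - s') • μ ∈ V := by
        have e : ((s : ZMod q) - s') • μ = (s' : ZMod q) • (l' - μ) - (s : ZMod q) • (l - μ) := by
          rw [smul_sub, smul_sub, sub_smul, ← h]
          abel
        rw [e]
        exact V.sub_mem (V.smul_mem _ hl'.2) (V.smul_mem _ hl.2)
      have h3 := scal_inj hμ h2
      have h4 : s = s' := Units.ext (sub_eq_zero.1 h3)
      subst h4
      rw [Prod.mk.injEq]
      exact ⟨rfl, smul_cancel s.ne_zero h⟩
    calc (q - 1) * wfib w Λ V μ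
        = ∑ t ∈ (univ : Finset (ZMod q)ˣ) ×ˢ fib Λ V μ, w t.2 := by
          rw [Finset.sum_product]
          have e : ∀ x : (ZMod q)ˣ, ∑ y ∈ fib Λ V μ, w (x, y).2 = wfib w Λ V μ := fun _ => rfl
          rw [Finset.sum_congr rfl fun x _ => e x, Finset.sum_const, Finset.card_univ,
            card_units_sub, smul_eq_mul]
      _ ≤ ∑ t ∈ (univ : Finset (ZMod q)ˣ) ×ˢ fib Λ V μ, w ((t.1 : ZMod q) • t.2) := by
          refine Finset.sum_le_sum fun t ht => ?_
          have hl := (mem_fib.1 (Finset.mem_product.1 ht).2).1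
          exact hw _ t.1.ne_zero _ hl
      _ = ∑ l ∈ ((univ : Finset (ZMod q)ˣ) ×ˢ fib Λ V μ).image
            (fun t => (t.1 : ZMod q) • t.2), w l := (Finset.sum_image hinj).symm
      _ ≤ _ := by
          refine Finset.sum_le_sum_of_subset fun x hx => ?_
          obtain ⟨⟨s, l⟩, hsl, rfl⟩ := Finset.mem_image.1 hx
          have hl := (Finset.mem_product.1 hsl).2
          rw [mem_fib] at hl
          show (s : ZMod q) • l ∈ _
          rw [Finset.mem_filter, mem_out]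
          have hlV : l ∉ V := fun h => hμ (by simpa using V.sub_mem h hl.2)
          refine ⟨⟨hΛ _ s.ne_zero _ hl.1, fun h => ?_⟩, ?_⟩
          · exact s.ne_zero (scal_inj hlV h)
          · apply V'.smul_mem
            rw [hV', mem_sup_span]
            exact ⟨1, by simpa using hl.2⟩
  have h2 : wout w Λ V = ∑ l ∈ (out Λ V).filter (fun l => l ∈ V'), w l + wout w Λ V' := by
    rw [wout, wout, ← Finset.sum_filter_add_sum_filter_not (s := out Λ V) (fun l => l ∈ V')]
    congr 1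
    refine Finset.sum_congr ?_ fun _ _ => rfl
    ext l
    rw [Finset.mem_filter, mem_out, mem_out]
    refine ⟨fun h => ⟨h.1.1, h.2⟩, fun h => ⟨⟨h.1, fun h' => h.2 ?_⟩, h.2⟩⟩
    exact (le_sup_left : V ≤ V') h'
  obtain ⟨m, rfl⟩ : ∃ m, P = m + 2 := ⟨P - 2, by omega⟩
  have e1 : m + 1 ≤ q - 1 := by omega
  have h3 : (m + 1) * wfib w Λ V μ ≤ (q - 1) * wfib w Λ V μ := Nat.mul_le_mul_right _ e1
  nlinarith

/-- the property which comes from the equation `F ^ 2 = 1` -/
def ReprW (q : ℕ) [Fact q.Prime] {E : Type*} [AddCommGroup E] [Module (ZMod q) E] (P : ℕ)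
    (w : E → ℕ) (Λ : Finset E) : Prop :=
  ∀ (V : Submodule (ZMod q) E), ∀ m1 ∈ Λ, ∀ m2 ∈ Λ, m1 ∉ V → m2 ∉ V → m1 + m2 ∉ V →
    m1 - m2 ∉ V → 2 * wfib w Λ V m1 ≤ P + 1 → 2 * wfib w Λ V m2 ≤ P + 1 →
    ∃ m3 ∈ Λ, ∃ m4 ∈ Λ, m3 + m4 - (m1 + m2) ∈ V ∧ m3 - m1 ∉ V ∧ m3 - m2 ∉ V

theorem wout_mono {w : E → ℕ} {Λ : Finset E} {V V' : Submodule (ZMod q) E} (h : V ≤ V') :
    wout w Λ V' ≤ wout w Λ V := by
  apply Finset.sum_le_sum_of_subset
  intro l hl
  rw [mem_out] at hl ⊢
  exact ⟨hl.1, fun h' => hl.2 (h h')⟩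

/-- the loss in a collapse -/
noncomputable def loss (P : ℕ) : ℝ := ((P : ℝ) - 1) ^ 2 / (Real.sqrt ((P : ℝ) - 1) + 1)

theorem loss_pos {P : ℕ} (hP : 2 ≤ P) : 0 < loss P := by
  have : (2 : ℝ) ≤ P := by exact_mod_cast hP
  have : 0 < (P : ℝ) - 1 := by linarith
  unfold loss
  positivity

theorem loss_mono {P Q : ℕ} (hP : 2 ≤ P) (hPQ : P ≤ Q) : loss P ≤ loss Q := by
  have h2 : (2 : ℝ) ≤ P := by exact_mod_cast hP
  have h3 : (P : ℝ) ≤ Q := by exact_mod_cast hPQ
  unfold loss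
  set s := Real.sqrt ((P : ℝ) - 1) with hs
  set t := Real.sqrt ((Q : ℝ) - 1) with ht
  have hs0 : 0 ≤ s := Real.sqrt_nonneg _
  have hst : s ≤ t := Real.sqrt_le_sqrt (by linarith)
  have es : (P : ℝ) - 1 = s * s := (Real.mul_self_sqrt (by linarith)).symm
  have et : (Q : ℝ) - 1 = t * t := (Real.mul_self_sqrt (by linarith)).symm
  rw [es, et, div_le_div_iff₀ (by positivity) (by positivity)]
  have h4 : s ^ 3 ≤ t ^ 3 := pow_le_pow_left₀ hs0 hst 3
  have h5 : s ^ 4 ≤ t ^ 4 := pow_le_pow_left₀ hs0 hst 4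
  have h6 : s * t * s ^ 3 ≤ s * t * t ^ 3 :=
    mul_le_mul_of_nonneg_left h4 (mul_nonneg hs0 (hs0.trans hst))
  nlinarith

variable [Module.Finite (ZMod q) E]

theorem dim_main {Λ : Finset E} (h0 : (0 : E) ∈ Λ) (hΛ : Scal q Λ) {w : E → ℕ}
    (hw : ∀ c : ZMod q, c ≠ 0 → ∀ l ∈ Λ, w l ≤ w (c • l)) {P : ℕ} (hP2 : 2 ≤ P) (hPq : P ≤ q)
    (hR : ReprW q P w Λ) :
    ∀ (n : ℕ) (V : Submodule (ZMod q) E), finrank (ZMod q) E ≤ finrank (ZMod q) V + n →
    ∃ U : Submodule (ZMod q) E, V ≤ U ∧ (∀ l ∈ Λ, l ∈ U) ∧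
      (finrank (ZMod q) U : ℝ) ≤ finrank (ZMod q) V + Real.logb 2 (Λ.card : ℝ) +
        2 * (wout w Λ V) / (P : ℝ) ^ 2 + 2 * (img0 Λ V).card / loss P := by
  classical
  have hPr : (2 : ℝ) ≤ (P : ℝ) := by exact_mod_cast hP2
  have hXpos : 0 < loss P := loss_pos hP2
  have hXX : loss P ≤ loss q := loss_mono hP2 hPq
  set X : ℝ := loss P with hX
  have hqpos : (0 : ℝ) < (P : ℝ) ^ 2 := by positivity
  intro n
  induction n with
  | zero =>
    intro V hV
    have hVtop : V = ⊤ := by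
      apply Submodule.eq_top_of_finrank_eq
      have := Submodule.finrank_le V
      omega
    refine ⟨V, le_rfl, fun l _ => by rw [hVtop]; trivial, ?_⟩
    have hc : (1 : ℝ) ≤ (Λ.card : ℝ) := by exact_mod_cast Finset.card_pos.2 ⟨0, h0⟩
    have := Real.logb_nonneg (b := 2) (by norm_num) hc
    have h2 : 0 ≤ 2 * (wout w Λ V : ℝ) / (P : ℝ) ^ 2 := by positivity
    have h3 : 0 ≤ 2 * ((img0 Λ V).card : ℝ) / X := by positivity
    linarith
  | succ n ih =>
    intro V hV
    by_cases hi : ∃ m ∈ Λ, m ∉ V ∧ P + 2 ≤ 2 * wfib w Λ V m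
    · obtain ⟨m, hm, hmV, hf⟩ := hi
      have hfr := finrank_sup_span hmV
      obtain ⟨U, hU1, hU2, hU3⟩ := ih (V ⊔ Submodule.span (ZMod q) {m}) (by rw [hfr]; omega)
      have hle : V ≤ V ⊔ Submodule.span (ZMod q) {m} := le_sup_left
      refine ⟨U, hle.trans hU1, hU2, hU3.trans ?_⟩
      have h1 := absorbW hΛ hw hmV hP2 hPq hf
      have h2 := img0_mono (Λ := Λ) hle
      have h1r : 2 * (wout w Λ (V ⊔ Submodule.span (ZMod q) {m}) : ℝ) + (P : ℝ) ^ 2 ≤
          2 * (wout w Λ V : ℝ) := by exact_mod_cast h1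
      have h2r : ((img0 Λ (V ⊔ Submodule.span (ZMod q) {m})).card : ℝ) ≤
          ((img0 Λ V).card : ℝ) := by exact_mod_cast h2
      have h3 : 2 * (wout w Λ (V ⊔ Submodule.span (ZMod q) {m}) : ℝ) / (P : ℝ) ^ 2 + 1 ≤
          2 * (wout w Λ V : ℝ) / (P : ℝ) ^ 2 := by
        rw [div_add_one hqpos.ne']
        exact div_le_div_of_nonneg_right h1r hqpos.le
      have h4 : 2 * ((img0 Λ (V ⊔ Submodule.span (ZMod q) {m})).card : ℝ) / X ≤
          2 * ((img0 Λ V).card : ℝ) / X :=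
        div_le_div_of_nonneg_right (by linarith) hXpos.le
      rw [hfr]
      push_cast
      linarith
    · push Not at hi
      by_cases hii : ∃ c1 ∈ Λ, ∃ c2 ∈ Λ, c1 ∉ V ∧ c2 ∉ V ⊔ Submodule.span (ZMod q) {c1} ∧
          ∀ l ∈ Λ, l ∈ (V ⊔ Submodule.span (ZMod q) {c1}) ⊔ Submodule.span (ZMod q) {c2} →
            l ∈ V ⊔ Submodule.span (ZMod q) {c1} ∨ l ∈ V ⊔ Submodule.span (ZMod q) {c2}
      · obtain ⟨c1, hc1, c2, hc2, h1V, h2V, hno⟩ := hii
        have hfr1 := finrank_sup_span h1V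
        have hfr2 := finrank_sup_span h2V
        have hle1 : V ≤ V ⊔ Submodule.span (ZMod q) {c1} := le_sup_left
        have hle2 : V ⊔ Submodule.span (ZMod q) {c1} ≤
          (V ⊔ Submodule.span (ZMod q) {c1}) ⊔ Submodule.span (ZMod q) {c2} := le_sup_left
        have hle := hle1.trans hle2
        have hrep : ∀ s t : ZMod q, s ≠ 0 → t ≠ 0 → ∃ l3 ∈ Λ, ∃ l4 ∈ Λ,
            l3 + l4 - (s • c1 + t • c2) ∈ V ∧ l3 - s • c1 ∉ V ∧ l3 - t • c2 ∉ V := by
          intro s t hs ht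
          have hsV : s • c1 ∉ V := fun h => hs (scal_inj h1V h)
          have htV1 : t • c2 ∉ V ⊔ Submodule.span (ZMod q) {c1} := fun h => ht (scal_inj h2V h)
          have htV : t • c2 ∉ V := fun h => htV1 (hle1 h)
          have hs1 : s • c1 ∈ V ⊔ Submodule.span (ZMod q) {c1} := by
            rw [mem_sup_span]; exact ⟨s, by simp⟩
          apply hR V _ (hΛ s hs _ hc1) _ (hΛ t ht _ hc2) hsV htV
          · intro h
            apply htV1
            have e : t • c2 = (s • c1 + t • c2) - s • c1 := by abel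
            rw [e]
            exact Submodule.sub_mem _ (hle1 h) hs1
          · intro h
            apply htV1
            have e : t • c2 = s • c1 - (s • c1 - t • c2) := by abel
            rw [e]
            exact Submodule.sub_mem _ hs1 (hle1 h)
          · have := hi _ (hΛ s hs _ hc1) hsV; omega
          · have := hi _ (hΛ t ht _ hc2) htV; omega
        have hcol := collapse hΛ h1V h2V hno hrep
        have hcol' : ((img0 Λ ((V ⊔ Submodule.span (ZMod q) {c1}) ⊔
            Submodule.span (ZMod q) {c2})).card : ℝ) + loss q ≤ ((img0 Λ V).card : ℝ) := hcol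
        rcases Nat.eq_zero_or_pos n with hn | hn
        · -- then `V` has codimension at most one, which is impossible
          exfalso
          have := Submodule.finrank_le
            ((V ⊔ Submodule.span (ZMod q) {c1}) ⊔ Submodule.span (ZMod q) {c2})
          omega
        obtain ⟨U, hU1, hU2, hU3⟩ := ih
          ((V ⊔ Submodule.span (ZMod q) {c1}) ⊔ Submodule.span (ZMod q) {c2})
          (by rw [hfr2, hfr1]; omega)
        refine ⟨U, hle.trans hU1, hU2, hU3.trans ?_⟩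
        have h1 : (wout w Λ ((V ⊔ Submodule.span (ZMod q) {c1}) ⊔
            Submodule.span (ZMod q) {c2}) : ℝ) ≤ (wout w Λ V : ℝ) := by
          exact_mod_cast wout_mono (Λ := Λ) hle
        have h3 : 2 * (wout w Λ ((V ⊔ Submodule.span (ZMod q) {c1}) ⊔
            Submodule.span (ZMod q) {c2}) : ℝ) / (P : ℝ) ^ 2 ≤
            2 * (wout w Λ V : ℝ) / (P : ℝ) ^ 2 :=
          div_le_div_of_nonneg_right (by linarith) hqpos.le
        have h4 : 2 * ((img0 Λ ((V ⊔ Submodule.span (ZMod q) {c1}) ⊔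
            Submodule.span (ZMod q) {c2})).card : ℝ) / X + 2 ≤
            2 * ((img0 Λ V).card : ℝ) / X := by
          rw [div_add' _ _ _ hXpos.ne']
          exact div_le_div_of_nonneg_right (by linarith) hXpos.le
        rw [hfr2, hfr1]
        push_cast
        linarith
      · push Not at hii
        obtain ⟨U, hU1, hU2, hU3⟩ := double_all h0 hΛ (V := V) (by
          intro c1 hc1 c2 hc2 h1V h2V
          exact hii c1 hc1 c2 hc2 h1V h2V)
        refine ⟨U, hU1, hU2, hU3.trans ?_⟩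
        have h2 : 0 ≤ 2 * (wout w Λ V : ℝ) / (P : ℝ) ^ 2 := by positivity
        have h3 : 0 ≤ 2 * ((img0 Λ V).card : ℝ) / X := by positivity
        linarith

end

end Pool.Agent.K1H68.LP
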