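import Mathlib

/-!
# Reduction to an elementary abelian quotient
-/

set_option autoImplicit false

namespace Pool.Agent.K1H68.LP

open Finset

theorem coprime_kill {E : Type*} [AddCommGroup E] {a b : ℕ} (h : a.Coprime b) {x : E}
    (ha : a • x = 0) (hb : b • x = 0) : x = 0 := by
  have h1 := addOrderOf_dvd_of_nsmul_eq_zero ha
  have h2 := addOrderOf_dvd_of_nsmul_eq_zero hb
  have h3 := Nat.dvd_gcd h1 h2
  rw [Nat.coprime_iff_gcd_eq_one.1 h, Nat.dvd_one] at h3
  exact AddMonoid.addOrderOf_eq_one_iff.1 h3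

theorem lift_unit {n N : ℕ} (h : n ∣ N) (hN : N ≠ 0) (c : (ZMod n)ˣ) :
    ∃ u : ℕ, u.Coprime N ∧ (u : ZMod n) = c := by
  have : NeZero N := ⟨hN⟩
  obtain ⟨c', hc'⟩ := ZMod.unitsMap_surjective h c
  refine ⟨(c' : ZMod N).val, ZMod.val_coe_unit_coprime c', ?_⟩
  rw [← hc', ZMod.unitsMap_def, Units.coe_map, MonoidHom.coe_coe]
  rw [← map_natCast (ZMod.castHom h (ZMod n)), ZMod.natCast_zmod_val]

/-- if all prime factors of a composite number are `≥ P` then its totient is `≥ P ^ 2 / 2` -/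
theorem totient_composite {n P : ℕ} (hn : 1 < n) (hnp : ¬ n.Prime) (hP2 : 2 ≤ P)
    (hP : ∀ l : ℕ, l.Prime → l ∣ n → P ≤ l) : P ^ 2 ≤ 2 * n.totient := by
  have hn1 : n ≠ 1 := by omega
  obtain ⟨m, hm⟩ := Nat.minFac_dvd n
  have hq := Nat.minFac_prime hn1
  generalize n.minFac = q at hm hq
  have hm1 : m ≠ 1 := by
    rintro rfl
    rw [mul_one] at hm
    exact hnp (hm ▸ hq)
  have hq' := Nat.minFac_prime hm1
  have hq'm := Nat.minFac_dvd m
  generalize m.minFac = q' at hq' hq'm
  have hPq : P ≤ q := hP q hq (hm ▸ dvd_mul_right _ _)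
  have hPq' : P ≤ q' := hP q' hq' (hm ▸ (hq'm.mul_left q))
  have hd : q * q' ∣ n := hm ▸ Nat.mul_dvd_mul_left q hq'm
  have hle : (q * q').totient ≤ n.totient :=
    Nat.le_of_dvd (Nat.totient_pos.2 (by omega)) (Nat.totient_dvd_of_dvd hd)
  obtain ⟨a, rfl⟩ : ∃ a, q = a + 1 := ⟨q - 1, by have := hq.two_le; omega⟩
  obtain ⟨b, rfl⟩ : ∃ b, q' = b + 1 := ⟨q' - 1, by have := hq'.two_le; omega⟩
  obtain ⟨p, rfl⟩ : ∃ p, P = p + 2 := ⟨P - 2, by omega⟩
  by_cases hqq : a = b
  · subst hqq
    have h1 : ((a + 1) * (a + 1)).totient = (a + 1) * a := by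
      have := Nat.totient_prime_pow_succ hq 1
      rw [show 1 + 1 = 2 from rfl, sq] at this
      rw [this]
      simp
    rw [h1] at hle
    nlinarith
  · have hcop : (a + 1).Coprime (b + 1) := by
      rw [Nat.coprime_primes hq hq']
      omega
    rw [Nat.totient_mul hcop, Nat.totient_prime hq, Nat.totient_prime hq'] at hle
    simp only [Nat.add_sub_cancel] at hle
    rcases lt_or_gt_of_ne hqq with h | h
    · have h1 : p + 1 ≤ a := by omega
      have h2 : p + 2 ≤ b := by omega
      nlinarith [Nat.mul_le_mul h1 h2]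
    · have h1 : p + 2 ≤ a := by omega
      have h2 : p + 1 ≤ b := by omega
      nlinarith [Nat.mul_le_mul h1 h2]

theorem totient_ge {n P : ℕ} (hn : 1 < n) (hP : ∀ l : ℕ, l.Prime → l ∣ n → P ≤ l) :
    P ≤ n.totient + 1 := by
  have hn1 : n ≠ 1 := by omega
  have hq := Nat.minFac_prime hn1
  have h1 := hP _ hq (Nat.minFac_dvd n)
  have h2 : n.minFac.totient ≤ n.totient :=
    Nat.le_of_dvd (Nat.totient_pos.2 (by omega)) (Nat.totient_dvd_of_dvd (Nat.minFac_dvd n))
  rw [Nat.totient_prime hq] at h2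
  omega

section

variable {E : Type*} [AddCommGroup E]

open Classical in
/-- the elements of `Λ` in the class of `μ` modulo `V` -/
noncomputable def afib (Λ : Finset E) (V : AddSubgroup E) (μ : E) : Finset E :=
  Λ.filter fun l => l - μ ∈ V

open Classical in
/-- the elements of `Λ` outside of `V` -/
noncomputable def aout (Λ : Finset E) (V : AddSubgroup E) : Finset E :=
  Λ.filter fun l => l ∉ V

theorem mem_afib {Λ : Finset E} {V : AddSubgroup E} {μ l : E} :
    l ∈ afib Λ V μ ↔ l ∈ Λ ∧ l - μ ∈ V := by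
  classical
  unfold afib
  rw [Finset.mem_filter]

theorem mem_aout {Λ : Finset E} {V : AddSubgroup E} {l : E} :
    l ∈ aout Λ V ↔ l ∈ Λ ∧ l ∉ V := by
  classical
  unfold aout
  rw [Finset.mem_filter]

/-- closure under the Galois group -/
def Gal (Λ : Finset E) : Prop := ∀ u : ℕ, u.Coprime (Nat.card E) → ∀ l ∈ Λ, u • l ∈ Λ

/-- the property which comes from the equation `F ^ 2 = 1` -/
def ReprG (P : ℕ) (Λ : Finset E) : Prop :=
  ∀ (V : AddSubgroup E), ∀ m1 ∈ Λ, ∀ m2 ∈ Λ, m1 ∉ V → m2 ∉ V → m1 + m2 ∉ V → m1 - m2 ∉ V →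
    2 * (afib Λ V m1).card ≤ P + 1 → 2 * (afib Λ V m2).card ≤ P + 1 →
    ∃ m3 ∈ Λ, ∃ m4 ∈ Λ, m3 + m4 - (m1 + m2) ∈ V ∧ m3 - m1 ∉ V ∧ m3 - m2 ∉ V

variable [Finite E]

theorem absorbG {Λ : Finset E} (hG : Gal Λ) {V : AddSubgroup E} {m : E} (hm : m ∉ V) :
    (aout Λ (V ⊔ AddSubgroup.zmultiples m)).card +
      (addOrderOf (QuotientAddGroup.mk m : E ⧸ V)).totient * (afib Λ V m).card ≤
      (aout Λ V).card := by
  classical
  set V' := V ⊔ AddSubgroup.zmultiples m with hV'
  set n := addOrderOf (QuotientAddGroup.mk m : E ⧸ V) with hn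
  have hnpos : 0 < n := addOrderOf_pos _
  have : NeZero n := ⟨hnpos.ne'⟩
  have hN : Nat.card E ≠ 0 := Nat.card_pos.ne'
  have hdvd : n ∣ Nat.card E :=
    (addOrderOf_dvd_natCard _).trans (AddSubgroup.card_quotient_dvd_card V)
  have hn1 : n ≠ 1 := by
    intro h
    rw [hn, AddMonoid.addOrderOf_eq_one_iff, QuotientAddGroup.eq_zero_iff] at h
    exact hm h
  choose u hu1 hu2 using lift_unit hdvd hN
  have hmk : ∀ l ∈ afib Λ V m, (QuotientAddGroup.mk l : E ⧸ V) = QuotientAddGroup.mk m := by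
    intro l hl
    have h1 := (mem_afib.1 hl).2
    rw [← QuotientAddGroup.eq_zero_iff, QuotientAddGroup.mk_sub, sub_eq_zero] at h1
    exact h1
  have h1 : n.totient * (afib Λ V m).card ≤ ((aout Λ V).filter fun l => l ∈ V').card := by
    rw [← ZMod.card_units_eq_totient n, ← Finset.card_univ, ← Finset.card_product]
    refine Finset.card_le_card_of_injOn (fun t => u t.1 • t.2) ?_ ?_
    · rintro ⟨c, l⟩ hcl
      have hl := (Finset.mem_product.1 (Finset.mem_coe.1 hcl)).2
      show u c • l ∈ _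
      rw [Finset.mem_coe, Finset.mem_filter, mem_aout]
      have hl1 := (mem_afib.1 hl)
      refine ⟨⟨hG _ (hu1 c) _ hl1.1, fun h => ?_⟩, ?_⟩
      · rw [← QuotientAddGroup.eq_zero_iff, QuotientAddGroup.mk_nsmul, hmk l hl] at h
        have h2 := addOrderOf_dvd_of_nsmul_eq_zero h
        rw [← hn] at h2
        have h3 := Nat.dvd_gcd h2 hdvd
        rw [Nat.coprime_iff_gcd_eq_one.1 (hu1 c), Nat.dvd_one] at h3
        exact hn1 h3
      · apply V'.nsmul_mem
        have e : l = (l - m) + m := by abel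
        rw [e, hV']
        exact AddSubgroup.add_mem _ (AddSubgroup.mem_sup_left hl1.2)
          (AddSubgroup.mem_sup_right (AddSubgroup.mem_zmultiples m))
    · rintro ⟨c, l⟩ hcl ⟨c', l'⟩ hcl' h
      have hl := (Finset.mem_product.1 (Finset.mem_coe.1 hcl)).2
      have hl' := (Finset.mem_product.1 (Finset.mem_coe.1 hcl')).2
      simp only at h hl hl'
      have h2 := congrArg (QuotientAddGroup.mk : E → E ⧸ V) h
      rw [QuotientAddGroup.mk_nsmul, QuotientAddGroup.mk_nsmul, hmk l hl, hmk l' hl',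
        nsmul_eq_nsmul_iff_modEq, ← hn, ← ZMod.natCast_eq_natCast_iff, hu2, hu2] at h2
      have h3 : c = c' := Units.ext h2
      subst h3
      rw [Prod.mk.injEq]
      refine ⟨rfl, ?_⟩
      have h4 : u c • (l - l') = 0 := by rw [smul_sub, h, sub_self]
      have h5 : Nat.card E • (l - l') = 0 := card_nsmul_eq_zero'
      exact sub_eq_zero.1 (coprime_kill (hu1 c) h4 h5)
  have h2 : (aout Λ V).card = ((aout Λ V).filter fun l => l ∈ V').card + (aout Λ V').card := by
    rw [← Finset.card_filter_add_card_filter_not (s := aout Λ V) (fun l => l ∈ V')]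
    congr 2
    ext l
    rw [Finset.mem_filter, mem_aout, mem_aout]
    refine ⟨fun h => ⟨h.1.1, h.2⟩, fun h => ⟨⟨h.1, fun h' => h.2 ?_⟩, h.2⟩⟩
    exact (le_sup_left : V ≤ V') h'
  omega

theorem card_sup_zmultiples (V : AddSubgroup E) (m : E) :
    Nat.card (V ⊔ AddSubgroup.zmultiples m : AddSubgroup E) ≤ Nat.card V * addOrderOf m := by
  rw [← Nat.card_zmultiples, ← Nat.card_prod]
  have hmem : ∀ t : V × AddSubgroup.zmultiples m,
      (t.1 : E) + (t.2 : E) ∈ V ⊔ AddSubgroup.zmultiples m := fun t =>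
    AddSubgroup.add_mem _ (AddSubgroup.mem_sup_left t.1.2) (AddSubgroup.mem_sup_right t.2.2)
  refine Nat.card_le_card_of_surjective
    (fun t : V × AddSubgroup.zmultiples m =>
      (⟨(t.1 : E) + (t.2 : E), hmem t⟩ : (V ⊔ AddSubgroup.zmultiples m : AddSubgroup E))) ?_
  rintro ⟨x, hx⟩
  rw [AddSubgroup.mem_sup] at hx
  obtain ⟨y, hy, z, hz, rfl⟩ := hx
  exact ⟨(⟨y, hy⟩, ⟨z, hz⟩), rfl⟩

theorem phaseA {P M : ℕ} (hP2 : 2 ≤ P)
    (hP : ∀ l : ℕ, l.Prime → l ∣ Nat.card E → P ≤ l) {Λ : Finset E} (hG : Gal Λ)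
    (hR : ReprG P Λ) (hM : ∀ l ∈ Λ, addOrderOf l ≤ M) :
    ∀ (k : ℕ) (V : AddSubgroup E), (aout Λ V).card ≤ k →
      ∃ (V1 : AddSubgroup E) (n : ℕ), Nat.card V1 ≤ Nat.card V * M ^ n ∧
        2 * (aout Λ V1).card + n * P ^ 2 ≤ 2 * (aout Λ V).card ∧
        ((∀ l ∈ Λ, l ∈ V1) ∨ ∃ q : ℕ, q.Prime ∧ P ≤ q ∧ (∀ l ∈ Λ, q • l ∈ V1) ∧
          ∃ l ∈ Λ, l ∉ V1) := by
  classical
  intro k
  induction k with
  | zero =>
    intro V hV
    refine ⟨V, 0, by simp, by simp, Or.inl fun l hl => ?_⟩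
    by_contra h
    have : l ∈ aout Λ V := mem_aout.2 ⟨hl, h⟩
    rw [Finset.card_eq_zero.1 (Nat.le_zero.1 hV)] at this
    simp at this
  | succ k ih =>
    intro V hV
    by_cases hall : ∀ l ∈ Λ, l ∈ V
    · exact ⟨V, 0, by simp, by simp, Or.inl hall⟩
    push Not at hall
    obtain ⟨m0, hm0, hm0V⟩ := hall
    have hordP : ∀ m : E, ∀ l : ℕ, l.Prime → l ∣ addOrderOf (QuotientAddGroup.mk m : E ⧸ V) →
        P ≤ l := by
      intro m l hl hd
      exact hP l hl (hd.trans ((addOrderOf_dvd_natCard _).trans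
        (AddSubgroup.card_quotient_dvd_card V)))
    have hord1 : ∀ m : E, m ∉ V → 1 < addOrderOf (QuotientAddGroup.mk m : E ⧸ V) := by
      intro m hm
      have h1 : 0 < addOrderOf (QuotientAddGroup.mk m : E ⧸ V) := addOrderOf_pos _
      have h2 : addOrderOf (QuotientAddGroup.mk m : E ⧸ V) ≠ 1 := by
        intro h
        rw [AddMonoid.addOrderOf_eq_one_iff, QuotientAddGroup.eq_zero_iff] at h
        exact hm h
      omega
    by_cases hbig : ∃ m ∈ Λ, m ∉ V ∧
        P ^ 2 ≤ 2 * ((addOrderOf (QuotientAddGroup.mk m : E ⧸ V)).totient * (afib Λ V m).card)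
    · obtain ⟨m, hm, hmV, hb⟩ := hbig
      have h1 := absorbG hG hmV
      have hPpos : 0 < P ^ 2 := by positivity
      obtain ⟨V1, n, hc, h2, h3⟩ := ih (V ⊔ AddSubgroup.zmultiples m) (by omega)
      refine ⟨V1, n + 1, ?_, ?_, h3⟩
      · calc Nat.card V1 ≤ Nat.card (V ⊔ AddSubgroup.zmultiples m : AddSubgroup E) * M ^ n := hc
          _ ≤ (Nat.card V * M) * M ^ n := by
              refine Nat.mul_le_mul_right _ ((card_sup_zmultiples V m).trans ?_)
              exact Nat.mul_le_mul_left _ (hM m hm)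
          _ = Nat.card V * M ^ (n + 1) := by ring
      · have e : (n + 1) * P ^ 2 = n * P ^ 2 + P ^ 2 := by ring
        rw [e]
        omega
    · push Not at hbig
      have hprime : ∀ m ∈ Λ, m ∉ V → (addOrderOf (QuotientAddGroup.mk m : E ⧸ V)).Prime := by
        intro m hm hmV
        by_contra hnp
        have h1 := totient_composite (hord1 m hmV) hnp hP2 (hordP m)
        have h2 := hbig m hm hmV
        have h3 : 1 ≤ (afib Λ V m).card := Finset.card_pos.2 ⟨m, mem_afib.2 ⟨hm, by simp⟩⟩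
        have h4 : (addOrderOf (QuotientAddGroup.mk m : E ⧸ V)).totient * 1 ≤
          (addOrderOf (QuotientAddGroup.mk m : E ⧸ V)).totient * (afib Λ V m).card :=
            Nat.mul_le_mul_left _ h3
        omega
      have hsmall : ∀ m ∈ Λ, m ∉ V → 2 * (afib Λ V m).card ≤ P + 1 := by
        intro m hm hmV
        by_contra hcon
        push Not at hcon
        have h1 := totient_ge (hord1 m hmV) (hordP m)
        have h2 := hbig m hm hmV
        obtain ⟨p, rfl⟩ : ∃ p, P = p + 2 := ⟨P - 2, by omega⟩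
        have h3 : p + 1 ≤ (addOrderOf (QuotientAddGroup.mk m : E ⧸ V)).totient := by omega
        have h4 : p + 4 ≤ 2 * (afib Λ V m).card := by omega
        nlinarith [Nat.mul_le_mul h3 h4]
      set q := addOrderOf (QuotientAddGroup.mk m0 : E ⧸ V) with hq
      have hqp : q.Prime := hprime m0 hm0 hm0V
      refine ⟨V, 0, by simp, by simp, Or.inr ⟨q, hqp, hordP m0 q hqp dvd_rfl, ?_, m0, hm0, hm0V⟩⟩
      by_contra hcon
      push Not at hcon
      obtain ⟨m1, hm1, hqm1⟩ := hcon
      have hm1V : m1 ∉ V := fun h => hqm1 (V.nsmul_mem h q)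
      set q' := addOrderOf (QuotientAddGroup.mk m1 : E ⧸ V) with hq'
      have hqp' : q'.Prime := hprime m1 hm1 hm1V
      have hk0 : q • (QuotientAddGroup.mk m0 : E ⧸ V) = 0 := addOrderOf_nsmul_eq_zero _
      have hk1 : q' • (QuotientAddGroup.mk m1 : E ⧸ V) = 0 := addOrderOf_nsmul_eq_zero _
      have hne : q ≠ q' := by
        intro h
        apply hqm1
        rw [← QuotientAddGroup.eq_zero_iff, QuotientAddGroup.mk_nsmul, h]
        exact hk1
      have hcop : q.Coprime q' := (Nat.coprime_primes hqp hqp').2 hne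
      have hm0n : (QuotientAddGroup.mk m0 : E ⧸ V) ≠ 0 := fun h =>
        hm0V ((QuotientAddGroup.eq_zero_iff _).1 h)
      have hm1n : (QuotientAddGroup.mk m1 : E ⧸ V) ≠ 0 := fun h =>
        hm1V ((QuotientAddGroup.eq_zero_iff _).1 h)
      have hsum : m0 + m1 ∉ V := by
        intro h
        rw [← QuotientAddGroup.eq_zero_iff, QuotientAddGroup.mk_add, add_eq_zero_iff_eq_neg] at h
        apply hm0n
        apply coprime_kill hcop hk0
        rw [h, smul_neg, hk1, neg_zero]
      have hdiff : m0 - m1 ∉ V := by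
        intro h
        rw [← QuotientAddGroup.eq_zero_iff, QuotientAddGroup.mk_sub, sub_eq_zero] at h
        apply hm0n
        apply coprime_kill hcop hk0
        rw [h, hk1]
      obtain ⟨m3, hm3, m4, hm4, h34, h30, h31⟩ := hR V m0 hm0 m1 hm1 hm0V hm1V hsum hdiff
        (hsmall m0 hm0 hm0V) (hsmall m1 hm1 hm1V)
      -- every element of `Λ` is killed by a prime
      have hkill : ∀ m ∈ Λ, ∃ a : ℕ, a.Prime ∧ a • (QuotientAddGroup.mk m : E ⧸ V) = 0 := by
        intro m hm
        by_cases hmV : m ∈ V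
        · exact ⟨q, hqp, by rw [(QuotientAddGroup.eq_zero_iff m).2 hmV, smul_zero]⟩
        · exact ⟨_, hprime m hm hmV, addOrderOf_nsmul_eq_zero _⟩
      obtain ⟨a, ha, ha3⟩ := hkill m3 hm3
      obtain ⟨b, hb, hb4⟩ := hkill m4 hm4
      rw [← QuotientAddGroup.eq_zero_iff, QuotientAddGroup.mk_sub, QuotientAddGroup.mk_add,
        QuotientAddGroup.mk_add, sub_eq_zero] at h34
      rw [← QuotientAddGroup.eq_zero_iff, QuotientAddGroup.mk_sub, sub_eq_zero] at h30 h31
      generalize (QuotientAddGroup.mk m0 : E ⧸ V) = x0 at *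
      generalize (QuotientAddGroup.mk m1 : E ⧸ V) = x1 at *
      generalize (QuotientAddGroup.mk m3 : E ⧸ V) = x3 at *
      generalize (QuotientAddGroup.mk m4 : E ⧸ V) = x4 at *
      clear_value q q'
      have hab : (a * b) • x0 = 0 ∧ (a * b) • x1 = 0 := by
        have h1 : (a * b) • x0 + (a * b) • x1 = 0 := by
          rw [← smul_add, ← h34, smul_add, mul_comm, mul_nsmul', ha3, smul_zero, mul_comm,
            mul_nsmul', hb4, smul_zero, add_zero]
        have h2 : (a * b) • x0 = 0 := by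
          apply coprime_kill hcop
          · rw [smul_comm, hk0, smul_zero]
          · rw [add_eq_zero_iff_eq_neg] at h1
            rw [h1, smul_neg, smul_comm, hk1, smul_zero, neg_zero]
        refine ⟨h2, ?_⟩
        rw [h2, zero_add] at h1
        exact h1
      have hqab : q = a ∨ q = b := by
        by_contra hcon
        push Not at hcon
        apply hm0n
        refine coprime_kill (a := q) (b := a * b) ?_ hk0 hab.1
        exact Nat.Coprime.mul_right ((Nat.coprime_primes hqp ha).2 hcon.1)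
          ((Nat.coprime_primes hqp hb).2 hcon.2)
      have hqab' : q' = a ∨ q' = b := by
        by_contra hcon
        push Not at hcon
        apply hm1n
        refine coprime_kill (a := q') (b := a * b) ?_ hk1 hab.2
        exact Nat.Coprime.mul_right ((Nat.coprime_primes hqp' ha).2 hcon.1)
          ((Nat.coprime_primes hqp' hb).2 hcon.2)
      have e1 : x3 - x0 = x1 - x4 := by
        rw [sub_eq_sub_iff_add_eq_add, h34, add_comm]
      have e2 : x3 - x1 = x0 - x4 := by
        rw [sub_eq_sub_iff_add_eq_add, h34]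
      rcases hqab with h | h
      · rcases hqab' with h' | h'
        · exact hne (h.trans h'.symm)
        · apply h30
          rw [← sub_eq_zero]
          apply coprime_kill hcop
          · rw [smul_sub, hk0, h, ha3, sub_zero]
          · rw [e1, smul_sub, hk1, h', hb4, sub_zero]
      · rcases hqab' with h' | h'
        · apply h31
          rw [← sub_eq_zero]
          apply coprime_kill hcop
          · rw [e2, smul_sub, hk0, h, hb4, sub_zero]
          · rw [smul_sub, hk1, h', ha3, sub_zero]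
        · exact hne (h.trans h'.symm)

end

end Pool.Agent.K1H68.LP
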