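import Mathlib
import Pool.Agent.K1H68.LP.DimW
import Pool.Agent.K1H68.LP.PhaseA

/-!
# The elementary abelian quotient, and the bound for the group generated by `Λ`
-/

set_option autoImplicit false

namespace Pool.Agent.K1H68.LP

open Finset Module

section

variable {E : Type*} [AddCommGroup E] [Finite E]

/-- the elements of the quotient killed by `q` -/
def tors (V1 : AddSubgroup E) (q : ℕ) : AddSubgroup (E ⧸ V1) :=
  (nsmulAddMonoidHom (α := E ⧸ V1) q).ker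

theorem mem_tors {V1 : AddSubgroup E} {q : ℕ} {x : E ⧸ V1} : x ∈ tors V1 q ↔ q • x = 0 := by
  unfold tors
  rw [AddMonoidHom.mem_ker, nsmulAddMonoidHom_apply]

theorem tors_smul {V1 : AddSubgroup E} {q : ℕ} (x : tors V1 q) : q • x = 0 :=
  Subtype.ext (mem_tors.1 x.2)

open Classical in
/-- the map to the torsion of the quotient -/
noncomputable def phi (V1 : AddSubgroup E) (q : ℕ) (l : E) : tors V1 q :=
  if h : (QuotientAddGroup.mk l : E ⧸ V1) ∈ tors V1 q then ⟨_, h⟩ else 0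

theorem phi_val {V1 : AddSubgroup E} {q : ℕ} {l : E} (h : q • l ∈ V1) :
    (phi V1 q l : E ⧸ V1) = QuotientAddGroup.mk l := by
  have h' : (QuotientAddGroup.mk l : E ⧸ V1) ∈ tors V1 q := by
    rw [mem_tors, ← QuotientAddGroup.mk_nsmul, QuotientAddGroup.eq_zero_iff]
    exact h
  unfold phi
  rw [dif_pos h']

noncomputable instance instModTors (V1 : AddSubgroup E) (q : ℕ) : Module (ZMod q) (tors V1 q) :=
  AddCommGroup.zmodModule tors_smul

theorem phaseB {P q : ℕ} [hqf : Fact q.Prime] (hP2 : 2 ≤ P) (hPq : P ≤ q) {Λ : Finset E}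
    (h0 : (0 : E) ∈ Λ) (hG : Gal Λ) (hR : ReprG P Λ) (V1 : AddSubgroup E)
    (hq : ∀ l ∈ Λ, q • l ∈ V1) (hne : ∃ l ∈ Λ, l ∉ V1) :
    ∃ (U : AddSubgroup E) (n : ℕ), (∀ l ∈ Λ, l ∈ U) ∧ Nat.card U ≤ Nat.card V1 * q ^ n ∧
      (n : ℝ) ≤ Real.logb 2 (Λ.card : ℝ) + 2 * ((aout Λ V1).card : ℝ) / (P : ℝ) ^ 2 +
        2 * ((aout Λ V1).card : ℝ) / loss P := by
  classical
  have hfin : Finite (tors V1 q) := inferInstance
  have hmf : Module.Finite (ZMod q) (tors V1 q) := Module.Finite.of_finite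
  let φ : E → tors V1 q := phi V1 q
  have hφ : ∀ l ∈ Λ, ((φ l : tors V1 q) : E ⧸ V1) = QuotientAddGroup.mk l := fun l hl =>
    phi_val (hq l hl)
  have hφ' : ∀ l : E, q • l ∈ V1 → ((φ l : tors V1 q) : E ⧸ V1) = QuotientAddGroup.mk l :=
    fun l hl => phi_val hl
  -- `q` divides the order
  have hqN : q ∣ Nat.card E := by
    obtain ⟨l0, hl0, hl0V⟩ := hne
    have h1 : addOrderOf (QuotientAddGroup.mk l0 : E ⧸ V1) = q := by
      apply addOrderOf_eq_prime
      · rw [← QuotientAddGroup.mk_nsmul, QuotientAddGroup.eq_zero_iff]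
        exact hq l0 hl0
      · intro h
        exact hl0V ((QuotientAddGroup.eq_zero_iff _).1 h)
    rw [← h1]
    exact (addOrderOf_dvd_natCard _).trans (AddSubgroup.card_quotient_dvd_card V1)
  have hN : Nat.card E ≠ 0 := Nat.card_pos.ne'
  have hlift : ∀ c : ZMod q, c ≠ 0 → ∃ u : ℕ, u.Coprime (Nat.card E) ∧ (u : ZMod q) = c := by
    intro c hc
    obtain ⟨u, h1, h2⟩ := lift_unit hqN hN (Units.mk0 c hc)
    exact ⟨u, h1, by rw [h2]; rfl⟩
  have hsm : ∀ (c : ZMod q) (u : ℕ), (u : ZMod q) = c → ∀ l ∈ Λ, u • l ∈ Λ →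
      φ (u • l) = c • φ l := by
    intro c u huc l hl hul
    apply Subtype.ext
    rw [hφ _ hul, ← huc, Nat.cast_smul_eq_nsmul, QuotientAddGroup.mk_nsmul,
      AddSubgroup.coe_nsmul, hφ l hl]
  let Λ1 : Finset (tors V1 q) := Λ.image φ
  let w : tors V1 q → ℕ := fun x => (Λ.filter fun l => φ l = x).card
  have hmem1 : ∀ x, x ∈ Λ1 ↔ ∃ l ∈ Λ, φ l = x := fun x => Finset.mem_image
  have hφ0 : φ 0 = 0 := by
    apply Subtype.ext
    rw [hφ 0 h0, QuotientAddGroup.mk_zero]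
    rfl
  have h01 : (0 : tors V1 q) ∈ Λ1 := (hmem1 0).2 ⟨0, h0, hφ0⟩
  have hS : Scal q Λ1 := by
    intro c hc x hx
    obtain ⟨l, hl, rfl⟩ := (hmem1 x).1 hx
    obtain ⟨u, hu1, hu2⟩ := hlift c hc
    exact (hmem1 _).2 ⟨u • l, hG u hu1 l hl, hsm c u hu2 l hl (hG u hu1 l hl)⟩
  have hw : ∀ c : ZMod q, c ≠ 0 → ∀ l ∈ Λ1, w l ≤ w (c • l) := by
    intro c hc x _
    obtain ⟨u, hu1, hu2⟩ := hlift c hc
    refine Finset.card_le_card_of_injOn (fun l => u • l) ?_ ?_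
    · intro l hl
      rw [Finset.mem_coe, Finset.mem_filter] at hl
      rw [Finset.mem_coe, Finset.mem_filter]
      refine ⟨hG u hu1 l hl.1, ?_⟩
      rw [hsm c u hu2 l hl.1 (hG u hu1 l hl.1), hl.2]
    · intro l _ l' _ h
      simp only at h
      have h4 : u • (l - l') = 0 := by rw [smul_sub, h, sub_self]
      have h5 : Nat.card E • (l - l') = 0 := card_nsmul_eq_zero'
      exact sub_eq_zero.1 (coprime_kill hu1 h4 h5)
  -- preimages of submodules
  let pre : Submodule (ZMod q) (tors V1 q) → AddSubgroup E := fun V =>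
    (V.toAddSubgroup.map (tors V1 q).subtype).comap (QuotientAddGroup.mk' V1)
  have hpre : ∀ (V : Submodule (ZMod q) (tors V1 q)) (l : E) (x : tors V1 q),
      (x : E ⧸ V1) = QuotientAddGroup.mk l → (l ∈ pre V ↔ x ∈ V) := by
    intro V l x hx
    show l ∈ (V.toAddSubgroup.map (tors V1 q).subtype).comap (QuotientAddGroup.mk' V1) ↔ _
    rw [AddSubgroup.mem_comap, AddSubgroup.mem_map, QuotientAddGroup.mk'_apply]
    constructor
    · rintro ⟨y, hy, h⟩
      have : y = x := Subtype.ext (by rw [hx]; exact h)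
      rw [← this]
      exact hy
    · intro h
      exact ⟨x, h, hx⟩
  have hfibc : ∀ (V : Submodule (ZMod q) (tors V1 q)) (l1 : E), l1 ∈ Λ →
      wfib w Λ1 V (φ l1) = (afib Λ (pre V) l1).card := by
    intro V l1 hl1
    have hd : ∀ l ∈ Λ, (l - l1 ∈ pre V ↔ φ l - φ l1 ∈ V) := by
      intro l hl
      apply hpre
      rw [AddSubgroup.coe_sub, hφ l hl, hφ l1 hl1, QuotientAddGroup.mk_sub]
    have hmaps : ∀ l ∈ afib Λ (pre V) l1, φ l ∈ fib Λ1 V (φ l1) := by
      intro l hl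
      rw [mem_afib] at hl
      rw [mem_fib]
      exact ⟨(hmem1 _).2 ⟨l, hl.1, rfl⟩, (hd l hl.1).1 hl.2⟩
    rw [Finset.card_eq_sum_card_fiberwise hmaps, wfib]
    refine Finset.sum_congr rfl fun x hx => ?_
    rw [mem_fib] at hx
    show (Λ.filter fun l => φ l = x).card = _
    congr 1
    ext l
    rw [Finset.mem_filter, Finset.mem_filter, mem_afib]
    constructor
    · rintro ⟨h1, h2⟩
      exact ⟨⟨h1, (hd l h1).2 (by rw [h2]; exact hx.2)⟩, h2⟩
    · rintro ⟨⟨h1, _⟩, h2⟩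
      exact ⟨h1, h2⟩
  have hRW : ReprW q P w Λ1 := by
    intro V m1 hm1 m2 hm2 h1V h2V h12 h12' hc1 hc2
    obtain ⟨l1, hl1, rfl⟩ := (hmem1 _).1 hm1
    obtain ⟨l2, hl2, rfl⟩ := (hmem1 _).1 hm2
    rw [hfibc V l1 hl1] at hc1
    rw [hfibc V l2 hl2] at hc2
    have e : ∀ (l : E) (x : tors V1 q), (x : E ⧸ V1) = QuotientAddGroup.mk l → x ∉ V →
        l ∉ pre V := fun l x hx h h' => h ((hpre V l x hx).1 h')
    obtain ⟨l3, hl3, l4, hl4, h34, h31, h32⟩ := hR (pre V) l1 hl1 l2 hl2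
      (e l1 (φ l1) (hφ l1 hl1) h1V) (e l2 (φ l2) (hφ l2 hl2) h2V)
      (e (l1 + l2) (φ l1 + φ l2) (by
        rw [AddSubgroup.coe_add, hφ l1 hl1, hφ l2 hl2, QuotientAddGroup.mk_add]) h12)
      (e (l1 - l2) (φ l1 - φ l2) (by
        rw [AddSubgroup.coe_sub, hφ l1 hl1, hφ l2 hl2, QuotientAddGroup.mk_sub]) h12') hc1 hc2
    refine ⟨φ l3, (hmem1 _).2 ⟨l3, hl3, rfl⟩, φ l4, (hmem1 _).2 ⟨l4, hl4, rfl⟩, ?_, ?_, ?_⟩
    · rw [← hpre V (l3 + l4 - (l1 + l2))]
      · exact h34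
      · rw [AddSubgroup.coe_sub, AddSubgroup.coe_add, AddSubgroup.coe_add, hφ l1 hl1, hφ l2 hl2,
          hφ l3 hl3, hφ l4 hl4, QuotientAddGroup.mk_sub, QuotientAddGroup.mk_add,
          QuotientAddGroup.mk_add]
    · rw [← hpre V (l3 - l1)]
      · exact h31
      · rw [AddSubgroup.coe_sub, hφ l1 hl1, hφ l3 hl3, QuotientAddGroup.mk_sub]
    · rw [← hpre V (l3 - l2)]
      · exact h32
      · rw [AddSubgroup.coe_sub, hφ l2 hl2, hφ l3 hl3, QuotientAddGroup.mk_sub]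
  -- the bound in the quotient
  obtain ⟨U, _, hU2, hU3⟩ := dim_main (q := q) h01 hS hw hP2 hPq hRW (finrank (ZMod q) (tors V1 q)) ⊥
    (Nat.le_add_left _ _)
  have hwout : wout w Λ1 (⊥ : Submodule (ZMod q) (tors V1 q)) = (aout Λ V1).card := by
    have hd : ∀ l ∈ Λ, (l ∉ V1 ↔ φ l ∉ (⊥ : Submodule (ZMod q) (tors V1 q))) := by
      intro l hl
      rw [Submodule.mem_bot, not_iff_not, ← QuotientAddGroup.eq_zero_iff, ← hφ l hl]
      constructor
      · intro h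
        exact Subtype.ext h
      · intro h
        rw [h]
        rfl
    have hmaps : ∀ l ∈ aout Λ V1, φ l ∈ out Λ1 (⊥ : Submodule (ZMod q) (tors V1 q)) := by
      intro l hl
      rw [mem_aout] at hl
      rw [mem_out]
      exact ⟨(hmem1 _).2 ⟨l, hl.1, rfl⟩, (hd l hl.1).1 hl.2⟩
    rw [Finset.card_eq_sum_card_fiberwise hmaps, wout]
    refine Finset.sum_congr rfl fun x hx => ?_
    rw [mem_out] at hx
    show (Λ.filter fun l => φ l = x).card = _
    congr 1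
    ext l
    rw [Finset.mem_filter, Finset.mem_filter, mem_aout]
    constructor
    · rintro ⟨h1, h2⟩
      exact ⟨⟨h1, (hd l h1).2 (by rw [h2]; exact hx.2)⟩, h2⟩
    · rintro ⟨⟨h1, _⟩, h2⟩
      exact ⟨h1, h2⟩
  have himg : (img0 Λ1 (⊥ : Submodule (ZMod q) (tors V1 q))).card ≤ (aout Λ V1).card := by
    rw [← hwout]
    have h1 : (img0 Λ1 (⊥ : Submodule (ZMod q) (tors V1 q))).card ≤
        (out Λ1 (⊥ : Submodule (ZMod q) (tors V1 q))).card := by
      have hsub : img0 Λ1 (⊥ : Submodule (ZMod q) (tors V1 q)) ⊆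
          (out Λ1 (⊥ : Submodule (ZMod q) (tors V1 q))).image
            (Submodule.mkQ (⊥ : Submodule (ZMod q) (tors V1 q))) := by
        intro c hc
        obtain ⟨⟨l, hl, rfl⟩, h0⟩ := mem_img0.1 hc
        refine Finset.mem_image.2 ⟨l, mem_out.2 ⟨hl, fun h => h0 (mkQ_eq_zero.2 h)⟩, rfl⟩
      exact (Finset.card_le_card hsub).trans Finset.card_image_le
    refine h1.trans ?_
    rw [Finset.card_eq_sum_ones, wout]
    refine Finset.sum_le_sum fun x hx => ?_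
    obtain ⟨l, hl, hlx⟩ := (hmem1 x).1 (mem_out.1 hx).1
    exact Finset.card_pos.2 ⟨l, Finset.mem_filter.2 ⟨hl, hlx⟩⟩
  refine ⟨pre U, finrank (ZMod q) U, ?_, ?_, ?_⟩
  · intro l hl
    rw [hpre U l (φ l) (hφ l hl)]
    exact hU2 _ ((hmem1 _).2 ⟨l, hl, rfl⟩)
  · have h1 : Nat.card U = q ^ finrank (ZMod q) U := by
      rw [Module.natCard_eq_pow_finrank (K := ZMod q) (V := U), Nat.card_zmod]
    rw [← h1, ← Nat.card_prod]
    have hm : ∀ t : V1 × U, (t.1 : E) + ((t.2 : tors V1 q) : E ⧸ V1).out ∈ pre U := by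
      intro t
      rw [hpre U _ (t.2 : tors V1 q)]
      · exact t.2.2
      · rw [QuotientAddGroup.mk_add, (QuotientAddGroup.eq_zero_iff _).2 t.1.2, zero_add,
          QuotientAddGroup.out_eq']
    refine Nat.card_le_card_of_surjective
      (fun t : V1 × U => (⟨(t.1 : E) + ((t.2 : tors V1 q) : E ⧸ V1).out, hm t⟩ : pre U)) ?_
    rintro ⟨x, hx⟩
    have hx' := hx
    change x ∈ (U.toAddSubgroup.map (tors V1 q).subtype).comap (QuotientAddGroup.mk' V1) at hx'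
    rw [AddSubgroup.mem_comap, AddSubgroup.mem_map] at hx'
    obtain ⟨y, hy, hxy⟩ := hx'
    have h2 : x - ((y : tors V1 q) : E ⧸ V1).out ∈ V1 := by
      rw [← QuotientAddGroup.eq_zero_iff, QuotientAddGroup.mk_sub, QuotientAddGroup.out_eq',
        sub_eq_zero]
      exact hxy.symm
    refine ⟨(⟨_, h2⟩, ⟨y, hy⟩), ?_⟩
    apply Subtype.ext
    simp
  · refine hU3.trans ?_
    have hPr : (2 : ℝ) ≤ (P : ℝ) := by exact_mod_cast hP2
    rw [finrank_bot, hwout]
    have h1 : Real.logb 2 (Λ1.card : ℝ) ≤ Real.logb 2 (Λ.card : ℝ) := by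
      apply Real.logb_le_logb_of_le (by norm_num)
      · exact_mod_cast Finset.card_pos.2 ⟨0, h01⟩
      · exact_mod_cast Finset.card_image_le
    have h2 : 2 * ((img0 Λ1 (⊥ : Submodule (ZMod q) (tors V1 q))).card : ℝ) / loss P ≤
        2 * ((aout Λ V1).card : ℝ) / loss P := by
      apply div_le_div_of_nonneg_right _ (loss_pos hP2).le
      have : ((img0 Λ1 (⊥ : Submodule (ZMod q) (tors V1 q))).card : ℝ) ≤
        ((aout Λ V1).card : ℝ) := by exact_mod_cast himg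
      linarith
    push_cast
    linarith

end

end Pool.Agent.K1H68.LP
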