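import Mathlib
import Pool.Agent.K1H68.LP.PhaseB

/-!
# The order of the group generated by `Λ`
-/

set_option autoImplicit false

namespace Pool.Agent.K1H68.LP

open Finset

theorem le_totient_sq (n : ℕ) : Odd n → n ≤ n.totient ^ 2 := by
  induction n using Nat.recOnPosPrimePosCoprime with
  | prime_pow p k hp hk =>
    intro hodd
    have hp3 : 3 ≤ p := by
      have h2 := hp.two_le
      rcases Nat.lt_or_ge p 3 with h | h
      · have : p = 2 := by omega
        subst this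
        exact absurd hodd (by rw [Nat.not_odd_iff_even]; exact (even_two.pow_of_ne_zero hk.ne'))
      · exact h
    obtain ⟨j, rfl⟩ : ∃ j, k = j + 1 := ⟨k - 1, by omega⟩
    rw [Nat.totient_prime_pow_succ hp]
    obtain ⟨m, rfl⟩ : ∃ m, p = m + 3 := ⟨p - 3, by omega⟩
    have e : m + 3 - 1 = m + 2 := rfl
    rw [e]
    have h1 : m + 3 ≤ (m + 2) ^ 2 := by nlinarith
    have h2 : 1 ≤ (m + 3) ^ j := Nat.one_le_pow _ _ (by omega)
    calc (m + 3) ^ (j + 1) = (m + 3) ^ j * (m + 3) := pow_succ _ _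
      _ ≤ ((m + 3) ^ j * (m + 3) ^ j) * (m + 2) ^ 2 :=
          Nat.mul_le_mul (Nat.le_mul_of_pos_left _ h2) h1
      _ = ((m + 3) ^ j * (m + 2)) ^ 2 := by ring
  | zero => intro h; exact absurd h (by decide)
  | one => intro _; simp
  | coprime a b _ _ hab iha ihb =>
    intro h
    rw [Nat.odd_mul] at h
    rw [Nat.totient_mul hab, mul_pow]
    exact Nat.mul_le_mul (iha h.1) (ihb h.2)

theorem numeric {P : ℕ} (hP : 3 ≤ P) :
    4 / (P : ℝ) ^ 2 + 2 / loss P ≤ 9 / ((P : ℝ) * Real.sqrt P) := by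
  have hPr : (3 : ℝ) ≤ P := by exact_mod_cast hP
  unfold loss
  rcases Nat.lt_or_ge P 4 with h | h
  · have hP3 : P = 3 := by omega
    subst hP3
    have e : ((3 : ℕ) : ℝ) - 1 = 2 := by norm_num
    rw [e]
    have h2 : Real.sqrt 2 ≤ 1.42 := by
      rw [Real.sqrt_le_left (by norm_num)]
      norm_num
    have h3 : Real.sqrt ((3 : ℕ) : ℝ) ≤ 1.74 := by
      rw [Real.sqrt_le_left (by norm_num)]
      norm_num
    have h3' : 0 < Real.sqrt ((3 : ℕ) : ℝ) := Real.sqrt_pos.2 (by norm_num)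
    have h1 : 9 / (((3 : ℕ) : ℝ) * 1.74) ≤ 9 / (((3 : ℕ) : ℝ) * Real.sqrt ((3 : ℕ) : ℝ)) := by
      apply div_le_div_of_nonneg_left (by norm_num) (by positivity)
      exact mul_le_mul_of_nonneg_left h3 (by norm_num)
    refine le_trans ?_ h1
    have h4 : 2 / ((2 : ℝ) ^ 2 / (Real.sqrt 2 + 1)) ≤ 1.21 := by
      have hs : 0 < Real.sqrt 2 + 1 := by positivity
      rw [div_div_eq_mul_div, div_le_iff₀ (by norm_num)]
      linarith
    have h5 : 4 / ((3 : ℕ) : ℝ) ^ 2 + 1.21 ≤ 9 / (((3 : ℕ) : ℝ) * 1.74) := by norm_num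
    linarith
  · have hPr4 : (4 : ℝ) ≤ P := by exact_mod_cast h
    set s := Real.sqrt (P : ℝ) with hs
    have hss : s * s = (P : ℝ) := Real.mul_self_sqrt (by linarith)
    have hs2 : 2 ≤ s := by
      rw [hs]
      apply Real.le_sqrt_of_sq_le
      linarith
    set u := Real.sqrt ((P : ℝ) - 1) with hu
    have hus : u ≤ s := Real.sqrt_le_sqrt (by linarith)
    have hu0 : 0 ≤ u := Real.sqrt_nonneg _
    have hP1 : 0 < (P : ℝ) - 1 := by linarith
    have h1 : 2 / (((P : ℝ) - 1) ^ 2 / (u + 1)) ≤ (32 / 9) * (s + 1) / (P : ℝ) ^ 2 := by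
      rw [div_div_eq_mul_div, div_le_div_iff₀ (by positivity) (by positivity)]
      have h2 : (P : ℝ) ^ 2 ≤ (16 / 9) * ((P : ℝ) - 1) ^ 2 := by nlinarith
      have h3 : 2 * (u + 1) ≤ 2 * (s + 1) := by linarith
      calc 2 * (u + 1) * (P : ℝ) ^ 2 ≤ 2 * (s + 1) * ((16 / 9) * ((P : ℝ) - 1) ^ 2) :=
            mul_le_mul h3 h2 (by positivity) (by positivity)
        _ = (32 / 9) * (s + 1) * ((P : ℝ) - 1) ^ 2 := by ring
    have h4 : 9 / ((P : ℝ) * s) = 9 * s / (P : ℝ) ^ 2 := by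
      rw [div_eq_div_iff (by positivity) (by positivity)]
      nlinarith
    rw [h4]
    have h5 : 4 / (P : ℝ) ^ 2 + (32 / 9) * (s + 1) / (P : ℝ) ^ 2 ≤ 9 * s / (P : ℝ) ^ 2 := by
      rw [← add_div]
      apply div_le_div_of_nonneg_right _ (by positivity)
      linarith
    linarith

section

variable {E : Type*} [AddCommGroup E] [Finite E]

/-- **Main combinatorial statement.** -/
theorem span_bound {P : ℕ} (hP3 : 3 ≤ P)
    (hP : ∀ l : ℕ, l.Prime → l ∣ Nat.card E → P ≤ l) {Λ : Finset E} (h0 : (0 : E) ∈ Λ)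
    (hG : Gal Λ) (hR : ReprG P Λ) {N : ℕ} (hN : (aout Λ ⊥).card ≤ N) :
    ∃ U : AddSubgroup E, (∀ l ∈ Λ, l ∈ U) ∧ Real.logb 2 (Nat.card U : ℝ) ≤
      (Real.logb 2 ((N : ℝ) + 1) + 9 * (N : ℝ) / ((P : ℝ) * Real.sqrt P)) *
        Real.logb 2 ((N : ℝ) + 1) := by
  classical
  have hP2 : 2 ≤ P := by omega
  have hPr : (3 : ℝ) ≤ P := by exact_mod_cast hP3
  set L := Real.logb 2 ((N : ℝ) + 1) with hL
  have hNr : (0 : ℝ) ≤ N := Nat.cast_nonneg N
  have hL0 : 0 ≤ L := Real.logb_nonneg (by norm_num) (by linarith)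
  have hcardΛ : Λ.card ≤ N + 1 := by
    have hsub : Λ ⊆ insert 0 (aout Λ ⊥) := by
      intro l hl
      rw [Finset.mem_insert, mem_aout, AddSubgroup.mem_bot]
      by_cases h : l = 0
      · exact Or.inl h
      · exact Or.inr ⟨hl, h⟩
    exact (Finset.card_le_card hsub).trans ((Finset.card_insert_le _ _).trans (by omega))
  have hlogΛ : Real.logb 2 (Λ.card : ℝ) ≤ L := by
    apply Real.logb_le_logb_of_le (by norm_num)
    · exact_mod_cast Finset.card_pos.2 ⟨0, h0⟩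
    · exact_mod_cast hcardΛ
  have hord : ∀ l ∈ Λ, addOrderOf l ≤ (N + 1) ^ 2 := by
    intro l hl
    by_cases hl0 : l = 0
    · rw [hl0, addOrderOf_zero]
      exact Nat.one_le_pow _ _ (by omega)
    · have h1 := absorbG hG (V := ⊥) (m := l) (fun h => hl0 (AddSubgroup.mem_bot.1 h))
      have hinj : Function.Injective (QuotientAddGroup.mk' (⊥ : AddSubgroup E)) := by
        rw [injective_iff_map_eq_zero]
        intro x hx
        rw [QuotientAddGroup.mk'_apply, QuotientAddGroup.eq_zero_iff] at hx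
        exact AddSubgroup.mem_bot.1 hx
      have h2 : addOrderOf (QuotientAddGroup.mk l : E ⧸ (⊥ : AddSubgroup E)) = addOrderOf l :=
        addOrderOf_injective (QuotientAddGroup.mk' (⊥ : AddSubgroup E)) hinj l
      rw [h2] at h1
      have h3 : 1 ≤ (afib Λ ⊥ l).card := Finset.card_pos.2 ⟨l, mem_afib.2 ⟨hl, by simp⟩⟩
      have h4 : (addOrderOf l).totient ≤ N := by
        calc (addOrderOf l).totient = (addOrderOf l).totient * 1 := (mul_one _).symm
          _ ≤ (addOrderOf l).totient * (afib Λ ⊥ l).card := Nat.mul_le_mul_left _ h3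
          _ ≤ N := by omega
      have hodd : Odd (addOrderOf l) := by
        rw [← Nat.not_even_iff_odd, even_iff_two_dvd]
        intro h
        have := hP 2 Nat.prime_two (h.trans (addOrderOf_dvd_natCard l))
        omega
      calc addOrderOf l ≤ (addOrderOf l).totient ^ 2 := le_totient_sq _ hodd
        _ ≤ (N + 1) ^ 2 := Nat.pow_le_pow_left (by omega) 2
  obtain ⟨V1, n1, hc1, hn1, hcase⟩ := phaseA hP2 hP hG hR hord _ ⊥ le_rfl
  have hV1pos : (0 : ℝ) < (Nat.card V1 : ℝ) := by exact_mod_cast Nat.card_pos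
  have hN1 : (0 : ℝ) < (N : ℝ) + 1 := by linarith
  have hlogV1 : Real.logb 2 (Nat.card V1 : ℝ) ≤ 2 * n1 * L := by
    have h1 : Nat.card V1 ≤ ((N + 1) ^ 2) ^ n1 := by
      have : Nat.card (⊥ : AddSubgroup E) = 1 := by simp
      rw [this, one_mul] at hc1
      exact hc1
    have h2 : (Nat.card V1 : ℝ) ≤ ((N : ℝ) + 1) ^ (2 * n1) := by
      rw [pow_mul]
      exact_mod_cast h1
    have h3 := Real.logb_le_logb_of_le (b := 2) (by norm_num) hV1pos h2
    rw [Real.logb_pow] at h3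
    push_cast at h3
    exact h3
  set a := (aout Λ V1).card with ha
  have hn1' : 2 * (a : ℝ) + (n1 : ℝ) * (P : ℝ) ^ 2 ≤ 2 * (N : ℝ) := by
    have h1 : 2 * a + n1 * P ^ 2 ≤ 2 * N := by omega
    exact_mod_cast h1
  have hP2pos : (0 : ℝ) < (P : ℝ) ^ 2 := by positivity
  have hloss := loss_pos hP2
  have hn1b : (n1 : ℝ) ≤ (2 * (N : ℝ) - 2 * a) / (P : ℝ) ^ 2 := by
    rw [le_div_iff₀ hP2pos]
    linarith
  have ha0 : (0 : ℝ) ≤ a := Nat.cast_nonneg a
  have haN : (a : ℝ) ≤ N := by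
    have : (0 : ℝ) ≤ (n1 : ℝ) * (P : ℝ) ^ 2 := by positivity
    linarith
  have hnum := numeric hP3
  have hfin : 4 * (N : ℝ) / (P : ℝ) ^ 2 + 2 * (N : ℝ) / loss P ≤
      9 * (N : ℝ) / ((P : ℝ) * Real.sqrt P) := by
    have h1 := mul_le_mul_of_nonneg_left hnum hNr
    have e1 : (N : ℝ) * (4 / (P : ℝ) ^ 2 + 2 / loss P) =
      4 * (N : ℝ) / (P : ℝ) ^ 2 + 2 * (N : ℝ) / loss P := by ring
    have e2 : (N : ℝ) * (9 / ((P : ℝ) * Real.sqrt P)) =
      9 * (N : ℝ) / ((P : ℝ) * Real.sqrt P) := by ring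
    rw [e1, e2] at h1
    exact h1
  have h2n1 : 2 * (n1 : ℝ) ≤ 4 * (N : ℝ) / (P : ℝ) ^ 2 - 4 * (a : ℝ) / (P : ℝ) ^ 2 := by
    have e : 4 * (N : ℝ) / (P : ℝ) ^ 2 - 4 * (a : ℝ) / (P : ℝ) ^ 2 =
      2 * ((2 * (N : ℝ) - 2 * a) / (P : ℝ) ^ 2) := by ring
    rw [e]
    linarith
  have haP : 0 ≤ (a : ℝ) / (P : ℝ) ^ 2 := by positivity
  rcases hcase with hall | ⟨q, hqp, hPq, hqk, hne⟩
  · refine ⟨V1, hall, hlogV1.trans (mul_le_mul_of_nonneg_right ?_ hL0)⟩
    have e4 : 4 * (a : ℝ) / (P : ℝ) ^ 2 = 4 * ((a : ℝ) / (P : ℝ) ^ 2) := by ring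
    have h1 : 0 ≤ 2 * (N : ℝ) / loss P := by positivity
    rw [e4] at h2n1
    linarith
  · have hqf : Fact q.Prime := ⟨hqp⟩
    obtain ⟨U, n2, hU1, hU2, hU3⟩ := phaseB hP2 hPq h0 hG hR V1 hqk hne
    refine ⟨U, hU1, ?_⟩
    -- `q ≤ N + 1`
    have hqN : q ≤ N + 1 := by
      obtain ⟨l0, hl0, hl0V⟩ := hne
      have h1 : addOrderOf (QuotientAddGroup.mk l0 : E ⧸ V1) = q := by
        apply addOrderOf_eq_prime
        · rw [← QuotientAddGroup.mk_nsmul, QuotientAddGroup.eq_zero_iff]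
          exact hqk l0 hl0
        · intro h
          exact hl0V ((QuotientAddGroup.eq_zero_iff _).1 h)
      have h2 := absorbG hG hl0V
      rw [h1, Nat.totient_prime hqp] at h2
      have h3 : 1 ≤ (afib Λ V1 l0).card := Finset.card_pos.2 ⟨l0, mem_afib.2 ⟨hl0, by simp⟩⟩
      have h4 : (q - 1) * 1 ≤ (q - 1) * (afib Λ V1 l0).card := Nat.mul_le_mul_left _ h3
      have h5 : a ≤ N := by exact_mod_cast haN
      omega
    have hqpos : (0 : ℝ) < q := by exact_mod_cast hqp.pos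
    have hlogq : Real.logb 2 (q : ℝ) ≤ L := by
      apply Real.logb_le_logb_of_le (by norm_num) hqpos
      exact_mod_cast hqN
    have hUpos : (0 : ℝ) < (Nat.card U : ℝ) := by exact_mod_cast Nat.card_pos
    have hlogU : Real.logb 2 (Nat.card U : ℝ) ≤ 2 * n1 * L + n2 * L := by
      have h1 : (Nat.card U : ℝ) ≤ (Nat.card V1 : ℝ) * (q : ℝ) ^ n2 := by exact_mod_cast hU2
      have h2 := Real.logb_le_logb_of_le (b := 2) (by norm_num) hUpos h1
      rw [Real.logb_mul hV1pos.ne' (by positivity), Real.logb_pow] at h2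
      have h3 : (n2 : ℝ) * Real.logb 2 (q : ℝ) ≤ n2 * L :=
        mul_le_mul_of_nonneg_left hlogq (Nat.cast_nonneg _)
      linarith
    refine hlogU.trans ?_
    rw [← add_mul]
    apply mul_le_mul_of_nonneg_right _ hL0
    have h1 : 2 * (a : ℝ) / loss P ≤ 2 * (N : ℝ) / loss P :=
      div_le_div_of_nonneg_right (by linarith) hloss.le
    have e3 : 2 * (a : ℝ) / (P : ℝ) ^ 2 = 2 * ((a : ℝ) / (P : ℝ) ^ 2) := by ring
    have e4 : 4 * (a : ℝ) / (P : ℝ) ^ 2 = 4 * ((a : ℝ) / (P : ℝ) ^ 2) := by ring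
    rw [e3] at hU3
    rw [e4] at h2n1
    linarith

end

end Pool.Agent.K1H68.LP
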