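import Mathlib
import Pool.Agent.H630R2.LR.M4
import Pool.Agent.H630R2.LR.M5
import Pool.Agent.H630R2.LR.RANK
import Pool.Agent.K1H68.LP.Dens
import Pool.Agent.K1H68.LP.Span

/-!
# The Fourier support of a Boolean function on a finite abelian group without small prime factors
-/

set_option autoImplicit false

namespace Pool.Agent.K1H68.LP

open Finset Pool.Agent.H630R2.LR

section

variable {E : Type*} [AddCommGroup E] [Fintype E]

theorem sum_class (V : AddSubgroup E) (u : E → ℂ)
    (hu : ∀ t : E, t ≠ 0 → ∑ x, u x * u (t - x) = 0) [Fintype (E ⧸ V)] [DecidableEq (E ⧸ V)]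
    (c : E ⧸ V) (hc : c ≠ 0) :
    ∑ c' : E ⧸ V, (∑ x with (QuotientAddGroup.mk x : E ⧸ V) = c', u x) *
      (∑ y with (QuotientAddGroup.mk y : E ⧸ V) = c - c', u y) = 0 := by
  classical
  have h1 : ∀ c' : E ⧸ V, (∑ x with (QuotientAddGroup.mk x : E ⧸ V) = c', u x) *
      (∑ y with (QuotientAddGroup.mk y : E ⧸ V) = c - c', u y) =
      ∑ x, ∑ y, if (QuotientAddGroup.mk x : E ⧸ V) = c' then
        (if (QuotientAddGroup.mk y : E ⧸ V) = c - c' then u x * u y else 0) else 0 := by
    intro c'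
    rw [Finset.sum_filter, Finset.sum_filter, Finset.sum_mul_sum]
    refine Finset.sum_congr rfl fun x _ => Finset.sum_congr rfl fun y _ => ?_
    split_ifs <;> simp
  rw [Finset.sum_congr rfl fun c' _ => h1 c', Finset.sum_comm]
  have h2 : ∀ x : E, ∑ c' : E ⧸ V, ∑ y, (if (QuotientAddGroup.mk x : E ⧸ V) = c' then
      (if (QuotientAddGroup.mk y : E ⧸ V) = c - c' then u x * u y else 0) else 0) =
      ∑ t : E, if (QuotientAddGroup.mk t : E ⧸ V) = c then u x * u (t - x) else 0 := by
    intro x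
    rw [Finset.sum_comm]
    refine Fintype.sum_equiv (Equiv.addRight x) _ _ fun y => ?_
    rw [Finset.sum_ite_eq, if_pos (Finset.mem_univ _)]
    simp only [Equiv.coe_addRight, add_sub_cancel_right, QuotientAddGroup.mk_add]
    by_cases h : (QuotientAddGroup.mk y : E ⧸ V) = c - QuotientAddGroup.mk x
    · rw [if_pos h, if_pos (by rw [h, sub_add_cancel])]
    · rw [if_neg h, if_neg (fun h' => h (by rw [← h', add_sub_cancel_right]))]
  rw [Finset.sum_congr rfl fun x _ => h2 x, Finset.sum_comm]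
  apply Finset.sum_eq_zero
  intro t _
  by_cases ht : (QuotientAddGroup.mk t : E ⧸ V) = c
  · simp only [if_pos ht]
    apply hu
    rintro rfl
    exact hc (by rw [← ht, QuotientAddGroup.mk_zero])
  · simp [ht]

open Classical in
theorem exists_third (V : AddSubgroup E) (u : E → ℂ)
    (hu : ∀ t : E, t ≠ 0 → ∑ x, u x * u (t - x) = 0) {m1 m2 : E} (h12 : m1 + m2 ∉ V)
    (h12' : m1 - m2 ∉ V) (h1 : ∑ x with x - m1 ∈ V, u x ≠ 0)
    (h2 : ∑ x with x - m2 ∈ V, u x ≠ 0) :
    ∃ x3 x4, u x3 ≠ 0 ∧ u x4 ≠ 0 ∧ x3 + x4 - (m1 + m2) ∈ V ∧ x3 - m1 ∉ V ∧ x3 - m2 ∉ V := by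
  classical
  have : Fintype (E ⧸ V) := Fintype.ofFinite _
  have hmk : ∀ x m : E, (x - m ∈ V ↔ (QuotientAddGroup.mk x : E ⧸ V) = QuotientAddGroup.mk m) := by
    intro x m
    rw [← QuotientAddGroup.eq_zero_iff, QuotientAddGroup.mk_sub, sub_eq_zero]
  simp only [hmk] at h1 h2
  set c1 : E ⧸ V := QuotientAddGroup.mk m1 with hc1
  set c2 : E ⧸ V := QuotientAddGroup.mk m2 with hc2
  have hc : c1 + c2 ≠ 0 := by
    rw [hc1, hc2, ← QuotientAddGroup.mk_add, Ne, QuotientAddGroup.eq_zero_iff]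
    exact h12
  have hc12 : c1 ≠ c2 := by
    intro h
    exact h12' ((hmk m1 m2).2 h)
  let W : (E ⧸ V) → ℂ := fun c' => ∑ x with (QuotientAddGroup.mk x : E ⧸ V) = c', u x
  have hsum : ∑ c' : E ⧸ V, W c' * W (c1 + c2 - c') = 0 := sum_class V u hu (c1 + c2) hc
  by_contra hcon
  push Not at hcon
  have hz : ∀ c' : E ⧸ V, c' ≠ c1 → c' ≠ c2 → W c' * W (c1 + c2 - c') = 0 := by
    intro c' h3 h4
    by_contra hne
    have h5 := left_ne_zero_of_mul hne
    have h6 := right_ne_zero_of_mul hne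
    obtain ⟨x3, hx3, hux3⟩ := Finset.exists_ne_zero_of_sum_ne_zero h5
    obtain ⟨x4, hx4, hux4⟩ := Finset.exists_ne_zero_of_sum_ne_zero h6
    rw [Finset.mem_filter] at hx3 hx4
    apply h4
    have h7 := hcon x3 x4 hux3 hux4 (by
      rw [hmk, QuotientAddGroup.mk_add, QuotientAddGroup.mk_add, hx3.2, hx4.2]
      abel) (by
      rw [hmk, hx3.2]
      exact h3)
    rw [hmk, hx3.2] at h7
    exact h7
  have h3 : ∑ c' : E ⧸ V, W c' * W (c1 + c2 - c') = W c1 * W c2 + W c2 * W c1 := by
    rw [← Finset.sum_subset (Finset.subset_univ ({c1, c2} : Finset (E ⧸ V)))]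
    · rw [Finset.sum_pair hc12, add_sub_cancel_left, add_sub_cancel_right]
    · intro c' _ hc'
      rw [Finset.mem_insert, Finset.mem_singleton, not_or] at hc'
      exact hz c' hc'.1 hc'.2
  rw [h3, mul_comm (W c2), ← two_mul] at hsum
  rcases mul_eq_zero.1 hsum with h | h
  · exact two_ne_zero h
  · rcases mul_eq_zero.1 h with h | h
    · exact h1 h
    · exact h2 h

end

section

variable {A : Type*} [AddCommGroup A] [Fintype A]

/-- the sign function -/
noncomputable def sg (f : A → Bool) (a : A) : ℂ := if f a then -1 else 1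

theorem sg_sq (f : A → Bool) (a : A) : sg f a * sg f a = 1 := by
  unfold sg
  split_ifs <;> norm_num

/-- the Fourier coefficients of the sign function -/
noncomputable def fs (f : A → Bool) (ψ : AddChar A ℂ) : ℂ := ∑ a, sg f a * ψ a

open Classical in
/-- the Fourier support of the sign function -/
noncomputable def Lam (f : A → Bool) : Finset (AddChar A ℂ) := univ.filter fun ψ => fs f ψ ≠ 0

theorem mem_Lam {f : A → Bool} {ψ : AddChar A ℂ} : ψ ∈ Lam f ↔ fs f ψ ≠ 0 := by
  classical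
  unfold Lam
  simp

theorem fs_eq (f : A → Bool) (ψ : AddChar A ℂ) (hψ : ψ ≠ 0) : fs f ψ = -2 * fc f ψ := by
  classical
  have h1 : fs f ψ = ∑ a, ψ a - 2 * fc f ψ := by
    unfold fs fc sg
    rw [Finset.mul_sum, ← Finset.sum_sub_distrib]
    refine Finset.sum_congr rfl fun a _ => ?_
    split_ifs <;> ring
  rw [h1, AddChar.sum_eq_zero_iff_ne_zero.2 hψ]
  ring

theorem fs_zero (f : A → Bool) (hA : Odd (Fintype.card A)) : fs f 0 ≠ 0 := by
  classical
  have h1 : fs f 0 = ((((Fintype.card A : ℤ) - 2 * (univ.filter fun a => f a = true).card : ℤ)) : ℂ)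
      := by
    unfold fs
    have h2 : ∀ a : A, sg f a * (0 : AddChar A ℂ) a = 1 - 2 * (if f a = true then 1 else 0) := by
      intro a
      rw [AddChar.zero_apply, mul_one]
      unfold sg
      split_ifs <;> norm_num
    rw [Finset.sum_congr rfl fun a _ => h2 a, Finset.sum_sub_distrib, ← Finset.mul_sum,
      Finset.sum_boole]
    simp
  rw [h1]
  intro h
  have h2 : ((Fintype.card A : ℤ) - 2 * (univ.filter fun a => f a = true).card : ℤ) = 0 := by
    exact_mod_cast h
  obtain ⟨k, hk⟩ := hA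
  omega

theorem conv (f : A → Bool) (t : AddChar A ℂ) (ht : t ≠ 0) :
    ∑ ψ : AddChar A ℂ, fs f ψ * fs f (t - ψ) = 0 := by
  classical
  have h1 : ∀ ψ : AddChar A ℂ, fs f ψ * fs f (t - ψ) =
      ∑ a, ∑ b, (sg f a * sg f b * t b) * ψ (a - b) := by
    intro ψ
    unfold fs
    rw [Finset.sum_mul_sum]
    refine Finset.sum_congr rfl fun a _ => Finset.sum_congr rfl fun b _ => ?_
    rw [AddChar.sub_apply, sub_eq_add_neg, AddChar.map_add_eq_mul]
    ring
  rw [Finset.sum_congr rfl fun ψ _ => h1 ψ, Finset.sum_comm]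
  have h2 : ∀ a : A, ∑ ψ : AddChar A ℂ, ∑ b, (sg f a * sg f b * t b) * ψ (a - b) =
      (Fintype.card A : ℂ) * t a := by
    intro a
    rw [Finset.sum_comm, Finset.sum_eq_single a]
    · rw [← Finset.mul_sum, AddChar.sum_apply_eq_ite, if_pos (sub_self a), sg_sq, one_mul]
      ring
    · intro b _ hb
      rw [← Finset.mul_sum, AddChar.sum_apply_eq_ite, if_neg (sub_ne_zero.2 (Ne.symm hb)), mul_zero]
    · intro h
      exact absurd (Finset.mem_univ a) h
  rw [Finset.sum_congr rfl fun a _ => h2 a, ← Finset.mul_sum,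
    AddChar.sum_eq_zero_iff_ne_zero.2 ht, mul_zero]

theorem cs_ne_zero {s : Finset (AddChar A ℂ)} {k : AddChar A ℂ → ℂ} {m : AddChar A ℂ}
    (hm : m ∈ s) (hk : k m ≠ 0) : ∃ a, cs s k a ≠ 0 := by
  classical
  by_contra hcon
  push Not at hcon
  have hli := AddChar.linearIndependent A ℂ
  rw [linearIndependent_iff'] at hli
  refine hk (hli s k ?_ m hm)
  funext a
  have := hcon a
  unfold cs at this
  rw [Finset.sum_apply]
  simpa [Pi.smul_apply, smul_eq_mul] using this

theorem reprG (f : A → Bool) {P : ℕ} (hP : ∀ l : ℕ, l.Prime → l ∣ Fintype.card A → P ≤ l) :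
    ReprG P (Lam f) := by
  classical
  intro V m1 hm1 m2 hm2 _ _ h12 h12' hc1 hc2
  have hm1' := mem_Lam.1 hm1
  have hm2' := mem_Lam.1 hm2
  obtain ⟨a, ha1, ha2⟩ := common hP (s1 := afib (Lam f) V m1) (s2 := afib (Lam f) V m2) (k := fs f)
    (cs_ne_zero (mem_afib.2 ⟨hm1, by rw [sub_self]; exact V.zero_mem⟩) hm1')
    (cs_ne_zero (mem_afib.2 ⟨hm2, by rw [sub_self]; exact V.zero_mem⟩) hm2') (by omega)
  have hu : ∀ t : AddChar A ℂ, t ≠ 0 →
      ∑ x, (fs f x * x a) * (fs f (t - x) * (t - x) a) = 0 := by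
    intro t ht
    have h1 : ∀ x : AddChar A ℂ, (fs f x * x a) * (fs f (t - x) * (t - x) a) =
        t a * (fs f x * fs f (t - x)) := by
      intro x
      rw [AddChar.sub_apply']
      have := char_ne_zero x a
      field_simp
    rw [Finset.sum_congr rfl fun x _ => h1 x, ← Finset.mul_sum, conv f t ht, mul_zero]
  have hs : ∀ m : AddChar A ℂ, ∑ x with x - m ∈ V, fs f x * x a = cs (afib (Lam f) V m) (fs f) a := by
    intro m
    unfold cs
    symm
    apply Finset.sum_subset
    · intro x hx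
      rw [Finset.mem_filter]
      exact ⟨Finset.mem_univ _, (mem_afib.1 hx).2⟩
    · intro x hx hx'
      rw [Finset.mem_filter] at hx
      have h0 : fs f x = 0 := by
        by_contra h
        exact hx' (mem_afib.2 ⟨mem_Lam.2 h, hx.2⟩)
      rw [h0, zero_mul]
  obtain ⟨x3, x4, h3, h4, h5, h6, h7⟩ := exists_third V (fun x => fs f x * x a) hu h12 h12'
    (by rw [hs m1]; exact ha1) (by rw [hs m2]; exact ha2)
  exact ⟨x3, mem_Lam.2 (left_ne_zero_of_mul h3), x4, mem_Lam.2 (left_ne_zero_of_mul h4), h5, h6, h7⟩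

theorem card_dual : Nat.card (AddChar A ℂ) = Fintype.card A := by
  rw [Nat.card_eq_fintype_card, AddChar.card_eq]

theorem gal (f : A → Bool) (hA : Odd (Fintype.card A)) : Gal (Lam f) := by
  intro u hu ψ hψ
  rw [mem_Lam] at hψ ⊢
  by_cases h0 : u • ψ = 0
  · rw [h0]
    exact fs_zero f hA
  · have hψ0 : ψ ≠ 0 := by
      rintro rfl
      exact h0 (nsmul_zero u)
    rw [fs_eq f _ h0]
    rw [fs_eq f _ hψ0] at hψ
    have h1 : fc f ψ ≠ 0 := fun h => hψ (by rw [h, mul_zero])
    have h2 : Nat.Coprime u (orderOf ψ) := by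
      refine Nat.Coprime.coprime_dvd_right ?_ hu
      exact orderOf_dvd_natCard ψ
    have h3 := Pool.Agent.H81R2.LR.fc_pow_ne_zero f ψ h2 h1
    rw [AddChar.pow_eq_nsmul] at h3
    exact mul_ne_zero (by norm_num) h3

theorem aout_le (f : A → Bool) : (aout (Lam f) ⊥).card ≤ (spec f).card := by
  classical
  apply Finset.card_le_card
  intro ψ hψ
  rw [mem_aout, mem_Lam, AddSubgroup.mem_bot] at hψ
  rw [fs_eq f ψ hψ.2] at hψ
  unfold spec
  rw [Finset.mem_filter]
  exact ⟨Finset.mem_univ _, fun h => hψ.1 (by rw [h, mul_zero])⟩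

end

/-- **Main theorem for functions.** A Boolean function on a finite abelian group without prime
factors less than `P` whose Fourier transform has at most `N` nonzero values is the pull-back of a
function on a small quotient. -/
theorem main_function {A : Type} [AddCommGroup A] [Fintype A] (f : A → Bool) {P N : ℕ}
    (hP3 : 3 ≤ P) (hP : ∀ l : ℕ, l.Prime → l ∣ Fintype.card A → P ≤ l)
    (hN : (spec f).card ≤ N) :
    ∃ W : AddSubgroup A, (∀ x z, z ∈ W → f (x + z) = f x) ∧
      Real.logb 2 (Nat.card (A ⧸ W) : ℝ) ≤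
      (Real.logb 2 ((N : ℝ) + 1) + 9 * (N : ℝ) / ((P : ℝ) * Real.sqrt P)) *
        Real.logb 2 ((N : ℝ) + 1) := by
  classical
  have hodd : Odd (Fintype.card A) := by
    rw [← Nat.not_even_iff_odd, even_iff_two_dvd]
    intro h
    have := hP 2 Nat.prime_two h
    omega
  obtain ⟨U, hU1, hU2⟩ := span_bound (E := AddChar A ℂ) hP3 (by rw [card_dual]; exact hP)
    (mem_Lam.2 (fs_zero f hodd)) (gal f hodd) (reprG f hP) ((aout_le f).trans hN)
  let φ : A →+ AddChar U ℂ :=
    { toFun := fun a => (AddChar.doubleDualEmb a).compAddMonoidHom U.subtype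
      map_zero' := by
        ext ψ
        simp
      map_add' := fun a b => by
        ext ψ
        simp }
  have hφ : ∀ (a : A) (ψ : U), φ a ψ = (ψ : AddChar A ℂ) a := fun a ψ => rfl
  refine ⟨φ.ker, ?_, ?_⟩
  · intro x z hz
    apply invariant_of_chars
    intro χ hχ
    by_cases hχ0 : χ = 0
    · rw [hχ0, AddChar.zero_apply]
    · have h1 : χ ∈ Lam f := by
        rw [mem_Lam, fs_eq f χ hχ0]
        unfold spec at hχ
        rw [Finset.mem_filter] at hχ
        exact mul_ne_zero (by norm_num) hχ.2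
      have h2 := hU1 χ h1
      rw [AddMonoidHom.mem_ker] at hz
      rw [← hφ z ⟨χ, h2⟩, hz, AddChar.zero_apply]
  · refine le_trans ?_ hU2
    apply Real.logb_le_logb_of_le (by norm_num)
    · exact_mod_cast Nat.card_pos
    · have h1 : Nat.card (A ⧸ φ.ker) ≤ Nat.card (AddChar U ℂ) :=
        Nat.card_le_card_of_injective _ (QuotientAddGroup.kerLift_injective φ)
      have h2 : Nat.card (AddChar U ℂ) = Nat.card U := by
        have : Fintype U := Fintype.ofFinite _
        rw [Nat.card_eq_fintype_card, AddChar.card_eq, Nat.card_eq_fintype_card]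
      rw [h2] at h1
      exact_mod_cast h1

end Pool.Agent.K1H68.LP
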