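import Mathlib
import Pool.Agent.H630R2.LR.M1
import Pool.Agent.K1H68.LP.Fourier

/-!
# Graphs and Boolean matrices with an abelian symmetry group without small prime factors
-/

set_option autoImplicit false

namespace Pool.Agent.K1H68.LP

open Finset Pool.Agent.H630R2.LR

/-- the bound `(log₂ (r + 1) + 9 r / p ^ (3/2)) log₂ (r + 1)` -/
noncomputable def bnd (r p : ℕ) : ℝ :=
  (Real.logb 2 ((r : ℝ) + 1) + 9 * (r : ℝ) / ((p : ℝ) * Real.sqrt p)) * Real.logb 2 ((r : ℝ) + 1)

theorem bnd_nonneg (r p : ℕ) : 0 ≤ bnd r p := by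
  have hr : (0 : ℝ) ≤ r := Nat.cast_nonneg r
  have hL0 : 0 ≤ Real.logb 2 ((r : ℝ) + 1) := Real.logb_nonneg (by norm_num) (by linarith)
  unfold bnd
  positivity

theorem bnd_le {r p : ℕ} (h : r ^ 2 ≤ p ^ 3) : bnd r p ≤ 10 * Real.logb 2 ((r : ℝ) + 1) ^ 2 := by
  have hr : (0 : ℝ) ≤ r := Nat.cast_nonneg r
  rcases Nat.eq_zero_or_pos r with h0 | h0
  · subst h0
    unfold bnd
    simp
  · have hL1 : 1 ≤ Real.logb 2 ((r : ℝ) + 1) := by
      rw [Real.le_logb_iff_rpow_le (by norm_num) (by positivity), Real.rpow_one]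
      have : (1 : ℝ) ≤ r := by exact_mod_cast h0
      linarith
    have hp : (0 : ℝ) ≤ p := Nat.cast_nonneg p
    have hs0 : 0 ≤ Real.sqrt p := Real.sqrt_nonneg _
    have hss : Real.sqrt p * Real.sqrt p = p := Real.mul_self_sqrt hp
    have h1 : (r : ℝ) ≤ (p : ℝ) * Real.sqrt p := by
      apply le_of_sq_le_sq _ (by positivity)
      have h2 : (r : ℝ) ^ 2 ≤ (p : ℝ) ^ 3 := by exact_mod_cast h
      calc (r : ℝ) ^ 2 ≤ (p : ℝ) ^ 3 := h2
        _ = (p : ℝ) ^ 2 * (Real.sqrt p * Real.sqrt p) := by rw [hss]; ring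
        _ = ((p : ℝ) * Real.sqrt p) ^ 2 := by ring
    have hpos : 0 < (p : ℝ) * Real.sqrt p := by
      have : (1 : ℝ) ≤ r := by exact_mod_cast h0
      linarith
    have h3 : 9 * (r : ℝ) / ((p : ℝ) * Real.sqrt p) ≤ 9 := by
      rw [div_le_iff₀ hpos]
      linarith
    unfold bnd
    nlinarith

theorem le_two_rpow {n : ℕ} {B : ℝ} (hn : 0 < n) (h : Real.logb 2 (n : ℝ) ≤ B) :
    (n : ℝ) ≤ (2 : ℝ) ^ B := by
  rwa [← Real.logb_le_iff_le_rpow (by norm_num) (by exact_mod_cast hn)]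

section

variable {A : Type} [AddCommGroup A] [Fintype A]

/-- the function of a pair of points of an invariant matrix -/
theorem rank_pair {X Y : Type} [Fintype X] [Fintype Y] [AddAction A X] [AddAction A Y]
    (F : X → Y → Bool) (hF : ∀ (g : A) (x : X) (y : Y), F (g +ᵥ x) (g +ᵥ y) = F x y) (x : X)
    (y : Y) : (comm (fun z w : A => (fun a => F x (a +ᵥ y)) (z + w))).rank ≤ (comm F).rank := by
  have e1 : ∀ z w : A, F x ((z + w) +ᵥ y) = F (-z +ᵥ x) (w +ᵥ y) := by
    intro z w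
    rw [← hF z (-z +ᵥ x) (w +ᵥ y), vadd_vadd, vadd_vadd, add_neg_cancel, zero_vadd]
  have : comm (fun z w : A => (fun a => F x (a +ᵥ y)) (z + w)) =
      (comm F).submatrix (fun z : A => -z +ᵥ x) (fun w : A => w +ᵥ y) := by
    ext z w
    simp only [Pool.Agent.H630R2.LR.comm, Matrix.of_apply, Matrix.submatrix_apply, e1]
  rw [this]
  exact Matrix.rank_submatrix_le _ _ _

theorem pair_quotient {X Y : Type} [Fintype X] [Fintype Y] [AddAction A X] [AddAction A Y]
    (F : X → Y → Bool) (hF : ∀ (g : A) (x : X) (y : Y), F (g +ᵥ x) (g +ᵥ y) = F x y)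
    {p : ℕ} (hp3 : 3 ≤ p) (hp : ∀ l : ℕ, l.Prime → l ∣ Nat.card A → p ≤ l) (x : X) (y : Y) :
    ∃ W : AddSubgroup A, (∀ a z, z ∈ W → F x ((a + z) +ᵥ y) = F x (a +ᵥ y)) ∧
      Real.logb 2 (Nat.card (A ⧸ W) : ℝ) ≤ bnd (comm F).rank p := by
  obtain ⟨W, h1, h2⟩ := main_function (fun a => F x (a +ᵥ y)) hp3
    (by rw [← Nat.card_eq_fintype_card]; exact hp)
    ((RANK.card_spec_le_rank _).trans (rank_pair F hF x y))
  exact ⟨W, h1, h2⟩

theorem core_protocol (f : A → Bool) (W : AddSubgroup A) (hW : ∀ x z, z ∈ W → f (x + z) = f x)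
    (w : ℕ) (hw : Nat.card (A ⧸ W) ≤ 2 ^ w) : Proto (fun x y : A => f (x + y)) (1 + w) := by
  classical
  have : Fintype (A ⧸ W) := Fintype.ofFinite _
  refine Proto.sendX _ (fun x => (QuotientAddGroup.mk x : A ⧸ W)) w ?_
    (fun q _ y => f (q.out + y)) 1 (fun q => ?_) (fun x y => ?_)
  · rw [← Nat.card_eq_fintype_card]
    exact hw
  · exact Proto.bob _ (fun y => f (q.out + y)) (fun v _ _ => v) 0
      (fun v => Proto.const _ v fun _ _ => rfl) (fun _ _ => rfl)
  · have h1 : (QuotientAddGroup.mk x : A ⧸ W).out - x ∈ W := by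
      rw [← QuotientAddGroup.eq_zero_iff, QuotientAddGroup.mk_sub, QuotientAddGroup.out_eq',
        sub_self]
    have h2 : (QuotientAddGroup.mk x : A ⧸ W).out + y =
        (x + y) + ((QuotientAddGroup.mk x : A ⧸ W).out - x) := by abel
    rw [h2, hW _ _ h1]

theorem clog_le' (n : ℕ) : (Nat.clog 2 n : ℝ) ≤ Real.logb 2 n + 1 := by
  have hnn : 0 ≤ Real.logb 2 (n : ℝ) := by
    rcases Nat.eq_zero_or_pos n with rfl | h
    · simp
    · exact Real.logb_nonneg (by norm_num) (by exact_mod_cast h)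
  rcases Nat.lt_or_ge 1 n with h | h
  · have h1 : 0 < Nat.clog 2 n := Nat.clog_pos (by norm_num) h
    have h2 := Nat.pow_pred_clog_lt_self (b := 2) (by norm_num) h
    have h3 : ((2 : ℝ) ^ (Nat.clog 2 n - 1 : ℕ)) ≤ n := by
      have : (2 : ℕ) ^ (Nat.clog 2 n - 1) ≤ n := by
        simpa [Nat.pred_eq_sub_one] using h2.le
      exact_mod_cast this
    have h4 : ((Nat.clog 2 n - 1 : ℕ) : ℝ) ≤ Real.logb 2 n := by
      rw [Real.le_logb_iff_rpow_le (by norm_num) (by positivity), Real.rpow_natCast]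
      exact h3
    have h5 : ((Nat.clog 2 n - 1 : ℕ) : ℝ) = (Nat.clog 2 n : ℝ) - 1 := by
      push_cast [Nat.cast_sub h1]; ring
    linarith
  · rw [Nat.clog_of_right_le_one h]
    simp only [Nat.cast_zero]
    linarith

/-- **Matrices.** -/
theorem matrix_bound {X Y : Type} [Fintype X] [Fintype Y] [AddAction A X] [AddAction A Y]
    (F : X → Y → Bool) (hF : ∀ (g : A) (x : X) (y : Y), F (g +ᵥ x) (g +ᵥ y) = F x y)
    {p : ℕ} (hp3 : 3 ≤ p) (hp : ∀ l : ℕ, l.Prime → l ∣ Nat.card A → p ≤ l) {s t : ℕ}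
    (hX : Nat.card (AddAction.orbitRel.Quotient A X) ≤ s)
    (hY : Nat.card (AddAction.orbitRel.Quotient A Y) ≤ t) :
    ∃ c : ℕ, Proto F c ∧
      (c : ℝ) ≤ bnd (comm F).rank p + Real.logb 2 s + Real.logb 2 t + 4 := by
  classical
  have : Fintype (AddAction.orbitRel.Quotient A X) := Fintype.ofFinite _
  have : Fintype (AddAction.orbitRel.Quotient A Y) := Fintype.ofFinite _
  have hX' : ∀ x : X, ∃ g : A, x = g +ᵥ (Quotient.mk'' x : AddAction.orbitRel.Quotient A X).out := by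
    intro x
    have h := (AddAction.orbitRel A X).symm (Quotient.mk_out (s := AddAction.orbitRel A X) x)
    obtain ⟨g, hg⟩ := (AddAction.orbitRel_apply.1 h)
    exact ⟨g, hg.symm⟩
  have hY' : ∀ y : Y, ∃ g : A, y = g +ᵥ (Quotient.mk'' y : AddAction.orbitRel.Quotient A Y).out := by
    intro x
    have h := (AddAction.orbitRel A Y).symm (Quotient.mk_out (s := AddAction.orbitRel A Y) x)
    obtain ⟨g, hg⟩ := (AddAction.orbitRel_apply.1 h)
    exact ⟨g, hg.symm⟩
  choose γ hγ using hX'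
  choose δ hδ using hY'
  set B := bnd (comm F).rank p with hB
  have hB0 : 0 ≤ B := bnd_nonneg _ _
  refine ⟨(1 + ⌈B⌉₊) + Nat.clog 2 t + Nat.clog 2 s, ?_, ?_⟩
  · refine Proto.sendX F (fun x => (Quotient.mk'' x : AddAction.orbitRel.Quotient A X))
      (Nat.clog 2 s) ?_ (fun q x y => F (γ x +ᵥ q.out) y) _ (fun q => ?_)
      (fun x y => by rw [← hγ x])
    · rw [← Nat.card_eq_fintype_card]
      exact hX.trans (Nat.le_pow_clog (by norm_num) _)
    refine Proto.sendY _ (fun y => (Quotient.mk'' y : AddAction.orbitRel.Quotient A Y))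
      (Nat.clog 2 t) ?_ (fun q' x y => F (γ x +ᵥ q.out) (δ y +ᵥ q'.out)) _ (fun q' => ?_)
      (fun x y => by rw [← hδ y])
    · rw [← Nat.card_eq_fintype_card]
      exact hY.trans (Nat.le_pow_clog (by norm_num) _)
    obtain ⟨W, hW1, hW2⟩ := pair_quotient F hF hp3 hp q.out q'.out
    have hcard : Nat.card (A ⧸ W) ≤ 2 ^ ⌈B⌉₊ := by
      have h1 : (Nat.card (A ⧸ W) : ℝ) ≤ (2 : ℝ) ^ B := le_two_rpow Nat.card_pos hW2
      have h2 : (2 : ℝ) ^ B ≤ (2 : ℝ) ^ (⌈B⌉₊ : ℝ) :=
        Real.rpow_le_rpow_of_exponent_le (by norm_num) (Nat.le_ceil B)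
      rw [Real.rpow_natCast] at h2
      exact_mod_cast h1.trans h2
    have key := core_protocol (fun a => F q.out (a +ᵥ q'.out)) W hW1 _ hcard
    have key2 := key.comap (fun x : X => -γ x) (fun y : Y => δ y)
    have e1 : ∀ z w : A, F q.out ((z + w) +ᵥ q'.out) = F (-z +ᵥ q.out) (w +ᵥ q'.out) := by
      intro z w
      rw [← hF z (-z +ᵥ q.out) (w +ᵥ q'.out), vadd_vadd, vadd_vadd, add_neg_cancel, zero_vadd]
    have e2 : (fun (x : X) (y : Y) =>
        (fun z w : A => (fun z => F q.out (z +ᵥ q'.out)) (z + w)) (-γ x) (δ y))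
        = fun x y => F (γ x +ᵥ q.out) (δ y +ᵥ q'.out) := by
      funext x y
      simp only [e1, neg_neg]
    rw [← e2]
    exact key2
  · have h1 := clog_le' t
    have h2 := clog_le' s
    have h3 := (Nat.ceil_lt_add_one hB0).le
    push_cast
    linarith

/-- **Graphs.** -/
theorem graph_bound {V : Type} [Fintype V] [AddAction A V] (G : SimpleGraph V)
    [DecidableRel G.Adj] (hG : ∀ (g : A) (u v : V), G.Adj (g +ᵥ u) (g +ᵥ v) ↔ G.Adj u v)
    {p : ℕ} (hp3 : 3 ≤ p) (hp : ∀ l : ℕ, l.Prime → l ∣ Nat.card A → p ≤ l) {t : ℕ}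
    (ht : Nat.card (AddAction.orbitRel.Quotient A V) ≤ t) :
    Real.logb 2 (G.chromaticNumber.toNat : ℝ) ≤
      Real.logb 2 t + bnd (G.adjMatrix ℝ).rank p := by
  classical
  let F : V → V → Bool := fun u v => decide (G.Adj u v)
  have hF : ∀ (g : A) (x y : V), F (g +ᵥ x) (g +ᵥ y) = F x y := by
    intro g x y
    simp only [F, hG]
  have hcomm : comm F = G.adjMatrix ℝ := by
    ext u v
    simp [Pool.Agent.H630R2.LR.comm, F, SimpleGraph.adjMatrix_apply]
  set B := bnd (G.adjMatrix ℝ).rank p with hB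
  have hB0 : 0 ≤ B := bnd_nonneg _ _
  let Q := AddAction.orbitRel.Quotient A V
  have : Fintype Q := Fintype.ofFinite _
  have hV' : ∀ x : V, ∃ g : A, x = g +ᵥ (Quotient.mk'' x : Q).out := by
    intro x
    have h := (AddAction.orbitRel A V).symm (Quotient.mk_out (s := AddAction.orbitRel A V) x)
    obtain ⟨g, hg⟩ := (AddAction.orbitRel_apply.1 h)
    exact ⟨g, hg.symm⟩
  choose γ hγ using hV'
  have hW : ∀ o : Q, ∃ W : AddSubgroup A,
      (∀ a z, z ∈ W → F o.out ((a + z) +ᵥ o.out) = F o.out (a +ᵥ o.out)) ∧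
      Real.logb 2 (Nat.card (A ⧸ W) : ℝ) ≤ B := by
    intro o
    obtain ⟨W, h1, h2⟩ := pair_quotient F hF hp3 hp o.out o.out
    rw [hcomm] at h2
    exact ⟨W, h1, h2⟩
  choose W hW1 hW2 using hW
  set M := ⌊(2 : ℝ) ^ B⌋₊ with hM
  have hM1 : 1 ≤ M := by
    rw [hM]
    apply Nat.le_floor
    rw [Nat.cast_one]
    exact Real.one_le_rpow (by norm_num) hB0
  have hemb : ∀ o : Q, ∃ e : (A ⧸ W o) → Fin M, Function.Injective e := by
    intro o
    have h1 : (Nat.card (A ⧸ W o) : ℝ) ≤ (2 : ℝ) ^ B := le_two_rpow Nat.card_pos (hW2 o)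
    have h2 : Nat.card (A ⧸ W o) ≤ M := Nat.le_floor h1
    have : Fintype (A ⧸ W o) := Fintype.ofFinite _
    rw [Nat.card_eq_fintype_card, ← Fintype.card_fin M] at h2
    obtain ⟨e⟩ := Function.Embedding.nonempty_of_card_le h2
    exact ⟨e, e.injective⟩
  choose e he using hemb
  have hsame : ∀ (o o' : Q) (a b : A), o = o' →
      e o (QuotientAddGroup.mk a) = e o' (QuotientAddGroup.mk b) →
      F o.out ((b - a) +ᵥ o.out) = F o.out o.out := by
    intro o o' a b h h'
    subst h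
    have h1 := he o h'
    have h2 : b - a ∈ W o := by
      rw [← QuotientAddGroup.eq_zero_iff, QuotientAddGroup.mk_sub, h1, sub_self]
    have h3 := hW1 o 0 (b - a) h2
    rw [zero_add, zero_vadd] at h3
    exact h3
  have hcol : G.Coloring (Q × Fin M) := SimpleGraph.Coloring.mk
    (fun v => ((Quotient.mk'' v : Q), e (Quotient.mk'' v : Q) (QuotientAddGroup.mk (γ v)))) (by
      intro u v huv h
      rw [Prod.mk.injEq] at h
      have h1 := hsame _ _ _ _ h.1 h.2
      have h2 : F (Quotient.mk'' u : Q).out (Quotient.mk'' u : Q).out = false := by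
        simp [F]
      rw [h2] at h1
      have h3 : F u v = F (Quotient.mk'' u : Q).out ((γ v - γ u) +ᵥ (Quotient.mk'' u : Q).out) := by
        have h4 : v = γ v +ᵥ (Quotient.mk'' u : Q).out := by
          rw [h.1]
          exact hγ v
        have h5 : (γ v - γ u) +ᵥ (Quotient.mk'' u : Q).out = -γ u +ᵥ v := by
          conv_rhs => rw [h4]
          rw [vadd_vadd]
          congr 1
          abel
        have h6 : (Quotient.mk'' u : Q).out = -γ u +ᵥ u := by
          have h7 := congrArg (fun w => -γ u +ᵥ w) (hγ u)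
          simp only [vadd_vadd, neg_add_cancel, zero_vadd] at h7
          exact h7.symm
        rw [h5, ← hF (-γ u) u v]
        conv_rhs => rw [h6]
      rw [← h3] at h1
      simp only [F, decide_eq_false_iff_not] at h1
      exact h1 huv)
  have h1 := hcol.colorable.chromaticNumber_le
  have h2 := ENat.toNat_le_toNat h1 (ENat.natCast_ne_top _)
  rw [ENat.toNat_natCast] at h2
  rcases Nat.eq_zero_or_pos G.chromaticNumber.toNat with h | h
  · rw [h]
    simp only [Nat.cast_zero, Real.logb_zero]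
    have : 0 ≤ Real.logb 2 (t : ℝ) := by
      rcases Nat.eq_zero_or_pos t with rfl | h'
      · simp
      · exact Real.logb_nonneg (by norm_num) (by exact_mod_cast h')
    linarith
  · have hQ : Fintype.card Q ≤ t := by
      rw [← Nat.card_eq_fintype_card]
      exact ht
    have h3 : G.chromaticNumber.toNat ≤ t * M := by
      refine h2.trans ?_
      rw [Fintype.card_prod, Fintype.card_fin]
      exact Nat.mul_le_mul_right _ hQ
    have htpos : 0 < t := by
      rcases Nat.eq_zero_or_pos t with h' | h'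
      · rw [h', zero_mul] at h3
        omega
      · exact h'
    have h4 : (G.chromaticNumber.toNat : ℝ) ≤ (t : ℝ) * (2 : ℝ) ^ B := by
      have h5 : (M : ℝ) ≤ (2 : ℝ) ^ B := Nat.floor_le (by positivity)
      calc (G.chromaticNumber.toNat : ℝ) ≤ (t : ℝ) * (M : ℝ) := by exact_mod_cast h3
        _ ≤ (t : ℝ) * (2 : ℝ) ^ B := mul_le_mul_of_nonneg_left h5 (Nat.cast_nonneg _)
    have h5 := Real.logb_le_logb_of_le (b := 2) (by norm_num) (by exact_mod_cast h) h4
    rw [Real.logb_mul (by exact_mod_cast htpos.ne') (by positivity),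
      Real.logb_rpow (by norm_num) (by norm_num)] at h5
    exact h5

end

end Pool.Agent.K1H68.LP
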